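import Pool.Agent.Q77.LU.StmH

/-!
# The commutator of two exponentials (proof of `S_BCH`)
-/

set_option autoImplicit false

namespace Pool.Agent.Q149.LU

open Pool.Agent.Q77.LU
open Matrix Set Filter Topology
open scoped ContDiff Matrix.Norms.Frobenius

variable {N : ℕ}

theorem fro2_eq (A : Mt N) : fro2 A = ‖A‖ ^ 2 := by
  have h1 : ‖A‖ ^ 2 = ∑ i, ∑ j, ‖A i j‖ ^ 2 := by
    rw [frobenius_norm_def]
    have h0 : 0 ≤ ∑ i, ∑ j, ‖A i j‖ ^ (2 : ℝ) :=
      Finset.sum_nonneg fun i _ => Finset.sum_nonneg fun j _ => Real.rpow_nonneg (norm_nonneg _) _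
    rw [← Real.sqrt_eq_rpow, Real.sq_sqrt h0]
    simp
  rw [h1]
  unfold fro2 trace
  simp only [diag_apply, mul_apply, conjTranspose_apply, Complex.re_sum]
  rw [Finset.sum_comm]
  refine Finset.sum_congr rfl fun i _ => Finset.sum_congr rfl fun j _ => ?_
  have : (star (A i j) * A i j : ℂ) = ((‖A i j‖ ^ 2 : ℝ) : ℂ) := by
    rw [Complex.star_def, ← Complex.normSq_eq_conj_mul_self, Complex.normSq_eq_norm_sq]
  rw [this, Complex.ofReal_re]

theorem norm_eq_of_fro2 {A B : Mt N} (h : fro2 A = fro2 B) : ‖A‖ = ‖B‖ := by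
  rw [fro2_eq, fro2_eq] at h
  exact (sq_eq_sq₀ (norm_nonneg _) (norm_nonneg _)).1 h

theorem fro2_mul_unitary {U : Mt N} (hU : U * Uᴴ = 1) (A : Mt N) : fro2 (A * U) = fro2 A := by
  unfold fro2
  rw [conjTranspose_mul, Matrix.mul_assoc, ← Matrix.mul_assoc Aᴴ A U,
    Matrix.trace_mul_comm Uᴴ, Matrix.mul_assoc, hU, Matrix.mul_one]

theorem fro2_unitary_mul {U : Mt N} (hU : Uᴴ * U = 1) (A : Mt N) : fro2 (U * A) = fro2 A := by
  unfold fro2
  rw [conjTranspose_mul, Matrix.mul_assoc, ← Matrix.mul_assoc Uᴴ U A, hU, Matrix.one_mul]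

theorem norm_mul_unitary {U : Mt N} (hU : U * Uᴴ = 1) (A : Mt N) : ‖A * U‖ = ‖A‖ :=
  norm_eq_of_fro2 (fro2_mul_unitary hU A)

theorem norm_unitary_mul {U : Mt N} (hU : Uᴴ * U = 1) (A : Mt N) : ‖U * A‖ = ‖A‖ :=
  norm_eq_of_fro2 (fro2_unitary_mul hU A)

/-- exponentials of skew Hermitian matrices are unitary -/
theorem exp_conjT {X : Mt N} (hX : Xᴴ = -X) : (NormedSpace.exp X)ᴴ = NormedSpace.exp (-X) := by
  rw [← Matrix.exp_conjTranspose, hX]

theorem exp_mul_neg (X : Mt N) : NormedSpace.exp X * NormedSpace.exp (-X) = 1 := by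
  have := Matrix.exp_add_of_commute X (-X) (Commute.neg_right (Commute.refl X))
  rw [← this, add_neg_cancel, NormedSpace.exp_zero]

theorem exp_neg_mul (X : Mt N) : NormedSpace.exp (-X) * NormedSpace.exp X = 1 := by
  have := Matrix.exp_add_of_commute (-X) X (Commute.neg_left (Commute.refl X))
  rw [← this, neg_add_cancel, NormedSpace.exp_zero]

theorem exp_unit1 {X : Mt N} (hX : Xᴴ = -X) :
    NormedSpace.exp X * (NormedSpace.exp X)ᴴ = 1 := by
  rw [exp_conjT hX, exp_mul_neg]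

theorem exp_unit2 {X : Mt N} (hX : Xᴴ = -X) :
    (NormedSpace.exp X)ᴴ * NormedSpace.exp X = 1 := by
  rw [exp_conjT hX, exp_neg_mul]

theorem skew_smul {X : Mt N} (hX : Xᴴ = -X) (s : ℝ) : (s • X)ᴴ = -(s • X) := by
  rw [conjTranspose_smul, hX, star_trivial, smul_neg]

theorem skew_neg {X : Mt N} (hX : Xᴴ = -X) : (-X)ᴴ = -(-X) := by
  rw [conjTranspose_neg, hX]

/-- `e^A C e^(-B)` has the norm of `C` -/
theorem norm_conj {A B : Mt N} (hA : Aᴴ = -A) (hB : Bᴴ = -B) (C : Mt N) :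
    ‖NormedSpace.exp A * C * NormedSpace.exp (-B)‖ = ‖C‖ := by
  rw [norm_mul_unitary (exp_unit1 (skew_neg hB)), norm_unitary_mul (exp_unit2 hA)]

theorem hasDerivAt_conj (A B C : Mt N) (s : ℝ) :
    HasDerivAt (fun u : ℝ => NormedSpace.exp (u • A) * C * NormedSpace.exp (-(u • B)))
      (NormedSpace.exp (s • A) * (A * C - C * B) * NormedSpace.exp (-(s • B))) s := by
  have h1 := hasDerivAt_exp_smul_const (𝕂 := ℝ) A s
  have h2 := hasDerivAt_exp_smul_const' (𝕂 := ℝ) (-B) s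
  have h3 := (h1.mul_const C).mul h2
  have e : (fun u : ℝ => NormedSpace.exp (u • A) * C * NormedSpace.exp (-(u • B))) =
      (fun u : ℝ => NormedSpace.exp (u • A) * C) * (fun u : ℝ => NormedSpace.exp (u • (-B))) := by
    funext u
    simp only [Pi.mul_apply, smul_neg]
  rw [e]
  refine h3.congr_deriv ?_
  simp only [smul_neg]
  noncomm_ring

theorem bound1 {A B : Mt N} (hA : Aᴴ = -A) (hB : Bᴴ = -B) (C : Mt N) {s : ℝ} (hs0 : 0 ≤ s)
    (hs1 : s ≤ 1) :
    ‖NormedSpace.exp (s • A) * C * NormedSpace.exp (-(s • B)) - C‖ ≤ ‖A * C - C * B‖ := by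
  have h := Convex.norm_image_sub_le_of_norm_hasDerivWithin_le
    (f := fun u : ℝ => NormedSpace.exp (u • A) * C * NormedSpace.exp (-(u • B)))
    (f' := fun s : ℝ => NormedSpace.exp (s • A) * (A * C - C * B) * NormedSpace.exp (-(s • B)))
    (C := ‖A * C - C * B‖) (s := Set.univ) (x := 0) (y := s)
    (fun u _ => (hasDerivAt_conj A B C u).hasDerivWithinAt)
    (fun u _ => (norm_conj (skew_smul hA u) (skew_smul hB u) _).le) convex_univ trivial trivial
  simp only [zero_smul, neg_zero, NormedSpace.exp_zero, Matrix.one_mul, Matrix.mul_one,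
    sub_zero, Real.norm_eq_abs, abs_of_nonneg hs0] at h
  refine h.trans ?_
  nlinarith [norm_nonneg (A * C - C * B)]

theorem bound2 {A B : Mt N} (hA : Aᴴ = -A) (hB : Bᴴ = -B) (C : Mt N) :
    ‖NormedSpace.exp A * C * NormedSpace.exp (-B) - C - (A * C - C * B)‖ ≤
      (‖A‖ + ‖B‖) * ‖A * C - C * B‖ := by
  set C' := A * C - C * B with hC'
  have hb : ‖A * C' - C' * B‖ ≤ (‖A‖ + ‖B‖) * ‖C'‖ := by
    refine (norm_sub_le _ _).trans ?_
    have h1 := norm_mul_le A C'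
    have h2 := norm_mul_le C' B
    nlinarith
  have h := Convex.norm_image_sub_le_of_norm_hasDerivWithin_le
    (f := fun u : ℝ => NormedSpace.exp (u • A) * C * NormedSpace.exp (-(u • B)) - u • C')
    (f' := fun s : ℝ => NormedSpace.exp (s • A) * C' * NormedSpace.exp (-(s • B)) - C')
    (C := (‖A‖ + ‖B‖) * ‖C'‖) (s := Set.Icc (0 : ℝ) 1) (x := 0) (y := 1)
    (fun u _ => by
      have := (hasDerivAt_conj A B C u).sub ((hasDerivAt_id u).smul_const C')
      simp only [one_smul] at this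
      exact this.hasDerivWithinAt)
    (fun u hu => (bound1 hA hB C' hu.1 hu.2).trans hb) (convex_Icc 0 1)
    (by simp) (by simp)
  simp only [zero_smul, neg_zero, NormedSpace.exp_zero, Matrix.one_mul, Matrix.mul_one,
    sub_zero, one_smul, Real.norm_eq_abs, abs_one, mul_one] at h
  have e : NormedSpace.exp A * C * NormedSpace.exp (-B) - C' - C =
      NormedSpace.exp A * C * NormedSpace.exp (-B) - C - C' := by abel
  rw [e] at h
  exact h

theorem re_trace_one_sub {W : Mt N} (hW : Wᴴ * W = 1) :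
    (trace (1 - W)).re = 1 / 2 * fro2 (1 - W) := by
  unfold fro2
  rw [conjTranspose_sub, conjTranspose_one]
  have e : (1 - Wᴴ) * (1 - W) = (1 - W) + (1 - W)ᴴ := by
    rw [conjTranspose_sub, conjTranspose_one]
    have : (1 - Wᴴ) * (1 - W) = 1 - W - Wᴴ + Wᴴ * W := by noncomm_ring
    rw [this, hW]
    abel
  rw [e, trace_add, Matrix.trace_conjTranspose]
  simp only [Complex.add_re, Complex.star_def, Complex.conj_re]
  ring

theorem num_bound {x y z w : ℝ} (hx : 0 ≤ x) (hy : 0 ≤ y) (hz : 0 ≤ z) (hw0 : 0 ≤ w)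
    (hx1 : x ≤ 1) (hy1 : y ≤ 1) (hab : |w - z| ≤ 6 * (x + y) * z) :
    |1 / 2 * w ^ 2 - 1 / 2 * z ^ 2| ≤ 84 * (x + y) * z ^ 2 := by
  have hw : w ≤ 13 * z := by
    have := (abs_le.1 hab).2
    nlinarith [mul_nonneg hx hz, mul_nonneg hy hz, mul_le_mul_of_nonneg_right hx1 hz,
      mul_le_mul_of_nonneg_right hy1 hz]
  have e : 1 / 2 * w ^ 2 - 1 / 2 * z ^ 2 = 1 / 2 * ((w - z) * (w + z)) := by ring
  have hwz : 0 ≤ w + z := by positivity
  rw [e, abs_mul, abs_mul, abs_of_nonneg (by norm_num : (0 : ℝ) ≤ 1 / 2), abs_of_nonneg hwz]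
  have h1 : |w - z| * (w + z) ≤ (6 * (x + y) * z) * (14 * z) := by
    refine mul_le_mul hab (by linarith) hwz (by positivity)
  have h2 : 0 ≤ (x + y) * z ^ 2 := by positivity
  nlinarith

theorem t_BCH : S_BCH := by
  intro N
  refine ⟨84, by norm_num, ?_⟩
  intro X Y hX hY hX1 hY1
  set Z := X * Y - Y * X with hZ
  set Y' := NormedSpace.exp X * Y * NormedSpace.exp (-X) with hY'
  -- Y' is skew
  have hY's : Y'ᴴ = -Y' := by
    rw [hY', conjTranspose_mul, conjTranspose_mul, exp_conjT hX, hY]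
    have : (NormedSpace.exp (-X))ᴴ = NormedSpace.exp X := by
      rw [exp_conjT (skew_neg hX), neg_neg]
    rw [this]
    noncomm_ring
  have hY'n : ‖Y'‖ = ‖Y‖ := norm_conj hX hX Y
  have hR : ‖Y' - Y - Z‖ ≤ (‖X‖ + ‖X‖) * ‖Z‖ := bound2 hX hX Y
  have hexp : NormedSpace.exp Y' = NormedSpace.exp X * NormedSpace.exp Y * NormedSpace.exp (-X) := by
    have hu : IsUnit (NormedSpace.exp X) :=
      IsUnit.of_mul_eq_one _ (exp_mul_neg X)
    have hinv : (NormedSpace.exp X)⁻¹ = NormedSpace.exp (-X) :=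
      Matrix.inv_eq_right_inv (exp_mul_neg X)
    have := Matrix.exp_conj (NormedSpace.exp X) Y hu
    rw [hinv] at this
    exact this
  set D := Y' - Y with hD
  have hD' : Y' * 1 - 1 * Y = D := by rw [Matrix.mul_one, Matrix.one_mul]
  have hS := bound2 hY's hY (1 : Mt N)
  rw [hD', Matrix.mul_one, hY'n] at hS
  have hW : NormedSpace.exp X * NormedSpace.exp Y * NormedSpace.exp (-X) * NormedSpace.exp (-Y) =
      NormedSpace.exp Y' * NormedSpace.exp (-Y) := by rw [hexp]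
  rw [hW]
  set W := NormedSpace.exp Y' * NormedSpace.exp (-Y) with hWd
  have hWu : Wᴴ * W = 1 := by
    rw [hWd, conjTranspose_mul, Matrix.mul_assoc,
      ← Matrix.mul_assoc _ (NormedSpace.exp Y') (NormedSpace.exp (-Y)), exp_unit2 hY's,
      Matrix.one_mul, exp_unit2 (skew_neg hY)]
  rw [re_trace_one_sub hWu, fro2_eq, fro2_eq]
  -- estimates
  have hz := norm_nonneg Z
  have hx := norm_nonneg X
  have hy := norm_nonneg Y
  have hDn : ‖D‖ ≤ 3 * ‖Z‖ := by
    have h1 : ‖D‖ ≤ ‖D - Z‖ + ‖Z‖ := by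
      have := norm_add_le (D - Z) Z
      rwa [sub_add_cancel] at this
    nlinarith
  have hE : ‖W - 1 - Z‖ ≤ 6 * (‖X‖ + ‖Y‖) * ‖Z‖ := by
    have h1 : ‖W - 1 - Z‖ ≤ ‖W - 1 - D‖ + ‖D - Z‖ := by
      have := norm_add_le (W - 1 - D) (D - Z)
      have e : W - 1 - D + (D - Z) = W - 1 - Z := by abel
      rwa [e] at this
    have h2 : ‖D - Z‖ ≤ 2 * ‖X‖ * ‖Z‖ := by
      refine hR.trans (le_of_eq ?_)
      ring
    have h3 : ‖W - 1 - D‖ ≤ 2 * ‖Y‖ * ‖D‖ := by
      refine hS.trans (le_of_eq ?_)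
      ring
    have h4 : 2 * ‖Y‖ * ‖D‖ ≤ 2 * ‖Y‖ * (3 * ‖Z‖) := by gcongr
    nlinarith [mul_nonneg hx hz, mul_nonneg hy hz]
  have hn : ‖1 - W‖ = ‖W - 1‖ := norm_sub_rev _ _
  rw [hn]
  exact num_bound hx hy hz (norm_nonneg (W - 1)) hX1 hY1
    ((abs_norm_sub_norm_le _ _).trans hE)

end Pool.Agent.Q149.LU
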