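import Pool.Agent.Q77.LU.StmH

/-!
# Exponentials of the Lie algebra of a closed subgroup of `U(N)` belong to the group

Proof of `S_EXPG` (Lie-Trotter product formula).
-/

set_option autoImplicit false

namespace Pool.Agent.Q149.LU

open Filter Topology

section Banach

variable {𝔸 : Type*} [NormedRing 𝔸] [NormedAlgebra ℂ 𝔸] [CompleteSpace 𝔸] [NormOneClass 𝔸]

lemma norm_exp_le (x : 𝔸) : ‖NormedSpace.exp x‖ ≤ Real.exp ‖x‖ := by
  have h1 := NormedSpace.norm_expSeries_summable' (𝕂 := ℂ) x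
  have h2 : HasSum (fun n : ℕ => ((n.factorial : ℝ)⁻¹) • ‖x‖ ^ n) (Real.exp ‖x‖) := by
    rw [Real.exp_eq_exp_ℝ]
    exact NormedSpace.exp_series_hasSum_exp' (𝕂 := ℝ) ‖x‖
  rw [NormedSpace.exp_eq_tsum ℂ]
  refine (norm_tsum_le_tsum_norm h1).trans ?_
  rw [← h2.tsum_eq]
  refine h1.tsum_le_tsum (fun n => ?_) h2.summable
  rw [norm_smul, norm_inv, Complex.norm_natCast, smul_eq_mul]
  exact mul_le_mul_of_nonneg_left (norm_pow_le x n) (by positivity)

lemma telescope (a b : 𝔸) (M : ℝ) (ha : ‖a‖ ≤ M) (hb : ‖b‖ ≤ M) (n : ℕ) :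
    ‖a ^ (n + 1) - b ^ (n + 1)‖ ≤ (n + 1) * ‖a - b‖ * M ^ n := by
  induction n with
  | zero => simp
  | succ n ih =>
    have hM : 0 ≤ M := (norm_nonneg a).trans ha
    have e : a ^ (n + 1 + 1) - b ^ (n + 1 + 1) =
        a ^ (n + 1) * (a - b) + (a ^ (n + 1) - b ^ (n + 1)) * b := by
      rw [pow_succ a (n + 1), pow_succ b (n + 1)]
      noncomm_ring
    rw [e]
    calc _ ≤ ‖a ^ (n + 1) * (a - b)‖ + ‖(a ^ (n + 1) - b ^ (n + 1)) * b‖ := norm_add_le _ _
      _ ≤ ‖a ^ (n + 1)‖ * ‖a - b‖ + ‖a ^ (n + 1) - b ^ (n + 1)‖ * ‖b‖ :=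
        add_le_add (norm_mul_le _ _) (norm_mul_le _ _)
      _ ≤ M ^ (n + 1) * ‖a - b‖ + ((n + 1) * ‖a - b‖ * M ^ n) * M := by
        have h1 : ‖a ^ (n + 1)‖ ≤ M ^ (n + 1) :=
          (norm_pow_le a _).trans (pow_le_pow_left₀ (norm_nonneg _) ha _)
        gcongr
      _ = _ := by push_cast; ring

lemma tendsto_f (x y : 𝔸) :
    Tendsto (fun m : ℕ => (2 : ℝ) ^ m * ‖NormedSpace.exp ((1 / 2 ^ m : ℂ) • x) *
      NormedSpace.exp ((1 / 2 ^ m : ℂ) • y) - NormedSpace.exp ((1 / 2 ^ m : ℂ) • (x + y))‖)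
      atTop (𝓝 0) := by
  have hx := hasDerivAt_exp_smul_const (𝕂 := ℂ) x (0 : ℂ)
  have hy := hasDerivAt_exp_smul_const (𝕂 := ℂ) y (0 : ℂ)
  have hxy := hasDerivAt_exp_smul_const (𝕂 := ℂ) (x + y) (0 : ℂ)
  have hf := (hx.mul hy).sub hxy
  have e0 : (NormedSpace.exp ((0 : ℂ) • x) * x * NormedSpace.exp ((0 : ℂ) • y) +
      NormedSpace.exp ((0 : ℂ) • x) * (NormedSpace.exp ((0 : ℂ) • y) * y) -
      NormedSpace.exp ((0 : ℂ) • (x + y)) * (x + y)) = 0 := by
    simp [NormedSpace.exp_zero]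
  rw [e0] at hf
  have h1 := hf.tendsto_slope_zero
  have ht : Tendsto (fun m : ℕ => (1 / 2 ^ m : ℂ)) atTop (𝓝[≠] 0) := by
    rw [tendsto_nhdsWithin_iff]
    constructor
    · have : Tendsto (fun m : ℕ => ((1 : ℂ) / 2) ^ m) atTop (𝓝 0) :=
        tendsto_pow_atTop_nhds_zero_of_norm_lt_one (by norm_num)
      simpa [div_pow] using this
    · exact Eventually.of_forall fun m => by simp
  have h2 := (h1.comp ht).norm
  rw [norm_zero] at h2
  refine h2.congr fun m => ?_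
  simp only [Function.comp_apply, Pi.mul_apply, Pi.sub_apply]
  rw [norm_smul]
  simp [NormedSpace.exp_zero]

theorem trotter (x y : 𝔸) :
    Tendsto (fun m : ℕ => (NormedSpace.exp ((1 / 2 ^ m : ℂ) • x) *
      NormedSpace.exp ((1 / 2 ^ m : ℂ) • y)) ^ 2 ^ m)
      atTop (𝓝 (NormedSpace.exp (x + y))) := by
  rw [tendsto_iff_norm_sub_tendsto_zero]
  have h1 := (tendsto_f x y).mul_const (Real.exp (‖x‖ + ‖y‖))
  rw [zero_mul] at h1
  refine squeeze_zero (fun _ => norm_nonneg _) (fun m => ?_) h1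
  set a := NormedSpace.exp ((1 / 2 ^ m : ℂ) • x) * NormedSpace.exp ((1 / 2 ^ m : ℂ) • y) with ha
  set b := NormedSpace.exp ((1 / 2 ^ m : ℂ) • (x + y)) with hb
  have e1 : NormedSpace.exp (x + y) = b ^ 2 ^ m := by
    letI : NormedAlgebra ℚ 𝔸 := NormedAlgebra.restrictScalars ℚ ℂ 𝔸
    rw [hb, ← NormedSpace.exp_nsmul]
    congr 1
    rw [← Nat.cast_smul_eq_nsmul ℂ, smul_smul]
    push_cast
    have h2 : (2 : ℂ) ^ m ≠ 0 := pow_ne_zero _ two_ne_zero
    rw [mul_one_div, div_self h2, one_smul]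
  rw [e1]
  have hn : ‖(1 / 2 ^ m : ℂ)‖ = 1 / 2 ^ m := by
    rw [norm_div, norm_pow]; norm_num
  set M := Real.exp ((1 / 2 ^ m) * (‖x‖ + ‖y‖)) with hM
  have hbM : ‖b‖ ≤ M := by
    refine (norm_exp_le _).trans ?_
    rw [hM, Real.exp_le_exp, norm_smul, hn]
    gcongr
    exact norm_add_le _ _
  have haM : ‖a‖ ≤ M := by
    refine (norm_mul_le _ _).trans ?_
    rw [hM, mul_add, Real.exp_add]
    refine mul_le_mul ?_ ?_ (norm_nonneg _) (Real.exp_nonneg _)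
    · refine (norm_exp_le _).trans ?_
      rw [Real.exp_le_exp, norm_smul, hn]
    · refine (norm_exp_le _).trans ?_
      rw [Real.exp_le_exp, norm_smul, hn]
  obtain ⟨k, hk⟩ : ∃ k : ℕ, 2 ^ m = k + 1 := ⟨2 ^ m - 1, by have := Nat.one_le_two_pow (n := m); omega⟩
  have hkR : (k : ℝ) + 1 = 2 ^ m := by exact_mod_cast hk.symm
  rw [hk]
  refine (telescope a b M haM hbM k).trans ?_
  rw [hkR]
  refine mul_le_mul_of_nonneg_left ?_ (by positivity)
  have hM1 : 1 ≤ M := by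
    rw [hM]; exact Real.one_le_exp (by positivity)
  calc M ^ k ≤ M ^ (k + 1) := pow_le_pow_right₀ hM1 (Nat.le_succ k)
    _ = Real.exp (‖x‖ + ‖y‖) := by
      rw [hM, ← Real.exp_nat_mul]
      congr 1
      push_cast
      rw [hkR]
      field_simp

end Banach

section Mat

open scoped Matrix.Norms.Operator

/-- Lie-Trotter for matrices. -/
theorem trotter_mat {N : ℕ} (x y : Matrix (Fin N) (Fin N) ℂ) :
    Tendsto (fun m : ℕ => (NormedSpace.exp ((1 / 2 ^ m : ℂ) • x) *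
      NormedSpace.exp ((1 / 2 ^ m : ℂ) • y)) ^ 2 ^ m)
      atTop (𝓝 (NormedSpace.exp (x + y))) := by
  rcases Nat.eq_zero_or_pos N with rfl | hN
  · have : ∀ z w : Matrix (Fin 0) (Fin 0) ℂ, z = w := fun z w => by ext i; exact i.elim0
    refine tendsto_const_nhds.congr (f₁ := fun _ => NormedSpace.exp (x + y)) fun m => this _ _
  · haveI : Nonempty (Fin N) := ⟨⟨0, hN⟩⟩
    exact trotter (𝔸 := Matrix (Fin N) (Fin N) ℂ) x y

end Mat

open Pool.Agent.Q77.LU

variable {N : ℕ} {G : Subgroup (UU N)}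

theorem mt_mul (g h : G) : mt (g * h) = mt g * mt h := rfl

theorem mt_pow (g : G) (k : ℕ) : mt (g ^ k) = mt g ^ k := by
  induction k with
  | zero => rfl
  | succ k ih => rw [pow_succ, pow_succ, mt_mul, ih]

/-- Limits of elements of `G` in the matrices belong to `G`. -/
theorem mem_of_tendsto (hG : IsClosed (G : Set (UU N))) (g : ℕ → G) (A : Mt N)
    (h : Tendsto (fun m => mt (g m)) atTop (𝓝 A)) : ∃ a : G, mt a = A := by
  have hU : IsClosed ((Matrix.unitaryGroup (Fin N) ℂ : Set (Mt N))) := isClosed_unitary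
  have hA : A ∈ (Matrix.unitaryGroup (Fin N) ℂ : Set (Mt N)) :=
    hU.mem_of_tendsto h (Eventually.of_forall fun m => (g m).1.2)
  have h2 : Tendsto (fun m => (g m : UU N)) atTop (𝓝 (⟨A, hA⟩ : UU N)) :=
    tendsto_subtype_rng.2 h
  have h3 : (⟨A, hA⟩ : UU N) ∈ (G : Set (UU N)) :=
    hG.mem_of_tendsto h2 (Eventually.of_forall fun m => (g m).2)
  exact ⟨⟨⟨A, hA⟩, h3⟩, rfl⟩

theorem exp_add_mem (hG : IsClosed (G : Set (UU N))) (X Y : Mt N)
    (hX : ∀ t : ℝ, ∃ g : G, mt g = NormedSpace.exp (t • X))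
    (hY : ∀ t : ℝ, ∃ g : G, mt g = NormedSpace.exp (t • Y)) (t : ℝ) :
    ∃ g : G, mt g = NormedSpace.exp (t • (X + Y)) := by
  choose gX hgX using hX
  choose gY hgY using hY
  have h1 := trotter_mat (t • X) (t • Y)
  rw [smul_add]
  refine mem_of_tendsto hG (fun m => (gX (t / 2 ^ m) * gY (t / 2 ^ m)) ^ 2 ^ m) _ ?_
  refine h1.congr fun m => ?_
  have e : ∀ Z : Mt N, ((1 / 2 ^ m : ℂ) • (t • Z)) = (t / 2 ^ m : ℝ) • Z := by
    intro Z
    ext i j
    simp only [Matrix.smul_apply, Complex.real_smul, smul_eq_mul]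
    push_cast
    ring
  rw [mt_pow, mt_mul, hgX, hgY, e, e]

theorem exp_lin_mem (hG : IsClosed (G : Set (UU N))) {n : ℕ} (B : LieBasis G n) (v : Fin n → ℝ)
    (t : ℝ) : ∃ g : G, mt g = NormedSpace.exp (t • lin B v) := by
  unfold lin
  have h : ∀ (s : Finset (Fin n)) (t : ℝ), ∃ g : G, mt g = NormedSpace.exp (t • ∑ a ∈ s, v a • B.X a) := by
    intro s
    induction s using Finset.induction_on with
    | empty =>
      intro t
      refine ⟨1, ?_⟩
      rw [Finset.sum_empty, smul_zero, NormedSpace.exp_zero]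
      rfl
    | insert a s ha ih =>
      intro t
      rw [Finset.sum_insert ha]
      refine exp_add_mem hG _ _ (fun t => ⟨B.ex a (t * v a), ?_⟩) ih t
      rw [B.ex_eq, mul_smul]
  exact h _ t

theorem t_EXPG : S_EXPG := by
  intro N n G hG B v
  obtain ⟨g, hg⟩ := exp_lin_mem hG B v 1
  exact ⟨g, by rw [hg, one_smul]⟩

end Pool.Agent.Q149.LU
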