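import Mathlib

/-!
# Taylor expansions with uniform bounds (abstract part of `S_TAYL`)
-/

set_option autoImplicit false
set_option linter.unusedSectionVars false

namespace Pool.Agent.Q149.LU

open Set Filter Topology
open scoped ContDiff

section general

variable {E F V : Type*} [NormedAddCommGroup E] [NormedSpace ℝ E]
  [NormedAddCommGroup F] [NormedSpace ℝ F] [NormedAddCommGroup V] [NormedSpace ℝ V]

/-- integrating a bound along a segment -/
theorem bound_step {f : F → V} {f' : F → F →L[ℝ] V} {K R : ℝ} {m : ℕ} (hK : 0 ≤ K)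
    (hf : ∀ a, HasFDerivAt f (f' a) a) (hf0 : f 0 = 0)
    (hb : ∀ a, ‖a‖ ≤ R → ‖f' a‖ ≤ K * ‖a‖ ^ m) (a : F) (ha : ‖a‖ ≤ R) :
    ‖f a‖ ≤ K * ‖a‖ ^ (m + 1) := by
  have hconv : Convex ℝ (Metric.closedBall (0 : F) ‖a‖) := convex_closedBall _ _
  have h := hconv.norm_image_sub_le_of_norm_hasFDerivWithin_le (f := f) (f' := f')
    (C := K * ‖a‖ ^ m) (x := 0) (y := a) (fun x _ => (hf x).hasFDerivWithinAt)
    (fun x hx => by
      rw [mem_closedBall_zero_iff] at hx
      refine (hb x (hx.trans ha)).trans ?_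
      gcongr) (by simp) (by simp)
  rw [hf0, sub_zero, sub_zero] at h
  rwa [pow_succ, ← mul_assoc]

variable [FiniteDimensional ℝ E] [FiniteDimensional ℝ F]

/-- a smooth function which vanishes on `a = 0` is `O(|a|)`, uniformly -/
theorem bound_zero {f : E × F → V} (hf : ContDiff ℝ 1 f) (h0 : ∀ C, f (C, 0) = 0) (R : ℝ) :
    ∃ K : ℝ, 0 ≤ K ∧ ∀ C a, ‖C‖ ≤ R → ‖a‖ ≤ R → ‖f (C, a)‖ ≤ K * ‖a‖ := by
  have hcomp : IsCompact (Metric.closedBall (0 : E × F) R) := isCompact_closedBall _ _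
  obtain ⟨K, hK⟩ := hcomp.exists_bound_of_continuousOn
    (f := fun x => fderiv ℝ f x) (hf.continuous_fderiv one_ne_zero).continuousOn
  refine ⟨max K 0, le_max_right _ _, fun C a hC ha => ?_⟩
  have hd : ∀ x, HasFDerivAt f (fderiv ℝ f x) x := fun x =>
    (hf.differentiable (by norm_num) x).hasFDerivAt
  have h := (convex_closedBall (0 : E × F) R).norm_image_sub_le_of_norm_hasFDerivWithin_le
    (f := f) (f' := fun x => fderiv ℝ f x) (C := max K 0) (x := (C, 0)) (y := (C, a))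
    (fun x _ => (hd x).hasFDerivWithinAt) (fun x hx => (hK x hx).trans (le_max_left _ _))
    (by
      rw [mem_closedBall_zero_iff, Prod.norm_def]
      exact max_le hC (by simpa using (norm_nonneg a).trans ha))
    (by
      rw [mem_closedBall_zero_iff, Prod.norm_def]
      exact max_le hC ha)
  rw [h0, sub_zero] at h
  simpa using h

variable (w : E × F → ℝ)

/-- first partial derivative in the second variable -/
noncomputable def W1 (x : E × F) : F →L[ℝ] ℝ :=
  (fderiv ℝ w x).comp (ContinuousLinearMap.inr ℝ E F)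

/-- second partial derivative in the second variable -/
noncomputable def W2 (x : E × F) : F →L[ℝ] F →L[ℝ] ℝ :=
  (fderiv ℝ (W1 w) x).comp (ContinuousLinearMap.inr ℝ E F)

variable {w}

theorem W1_smooth (hw : ContDiff ℝ ∞ w) : ContDiff ℝ ∞ (W1 w) := by
  unfold W1
  exact (hw.fderiv_right (m := ∞) (by simp)).clm_comp contDiff_const

theorem W2_smooth (hw : ContDiff ℝ ∞ w) : ContDiff ℝ ∞ (W2 w) := by
  unfold W2
  exact ((W1_smooth hw).fderiv_right (m := ∞) (by simp)).clm_comp contDiff_const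

theorem hasFDerivAt_pair (C : E) (a : F) :
    HasFDerivAt (fun a : F => (C, a)) (ContinuousLinearMap.inr ℝ E F) a := by
  have h := (hasFDerivAt_const C a).prodMk (hasFDerivAt_id (𝕜 := ℝ) a)
  exact h

theorem hasFDerivAt_w (hw : ContDiff ℝ ∞ w) (C : E) (a : F) :
    HasFDerivAt (fun a => w (C, a)) (W1 w (C, a)) a :=
  ((hw.differentiable (by simp) (C, a)).hasFDerivAt).comp a (hasFDerivAt_pair C a)

theorem hasFDerivAt_W1 (hw : ContDiff ℝ ∞ w) (C : E) (a : F) :
    HasFDerivAt (fun a => W1 w (C, a)) (W2 w (C, a)) a :=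
  (((W1_smooth hw).differentiable (by simp) (C, a)).hasFDerivAt).comp a (hasFDerivAt_pair C a)

theorem W2_symm (hw : ContDiff ℝ ∞ w) (C : E) (a b c : F) :
    W2 w (C, a) b c = W2 w (C, a) c b :=
  second_derivative_symmetric (fun y => hasFDerivAt_w hw C y) (hasFDerivAt_W1 hw C a) b c

/-- third order Taylor formula in the second variable, at points where the first derivative
vanishes -/
theorem taylor3 (hw : ContDiff ℝ ∞ w) (h1 : ∀ C, W1 w (C, 0) = 0) (R : ℝ) :
    ∃ K : ℝ, 0 ≤ K ∧ ∀ C a, ‖C‖ ≤ R → ‖a‖ ≤ R →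
      |w (C, a) - w (C, 0) - 1 / 2 * W2 w (C, 0) a a| ≤ K * ‖a‖ ^ 3 := by
  have hg : ContDiff ℝ 1 (fun x : E × F => W2 w x - W2 w (x.1, 0)) := by
    have h2 : ContDiff ℝ 1 (W2 w) := (W2_smooth hw).of_le (by simp)
    exact h2.sub (h2.comp (contDiff_fst.prodMk contDiff_const))
  obtain ⟨K, hK0, hK⟩ := bound_zero hg (fun C => by
    have h := sub_self (W2 w (C, (0 : F)))
    exact h) R
  refine ⟨K, hK0, fun C a hC ha => ?_⟩
  -- first derivative of the remainder
  have e1 : ∀ b : F, ‖b‖ ≤ R → ‖W1 w (C, b) - W2 w (C, 0) b‖ ≤ K * ‖b‖ ^ 2 := by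
    intro b hb
    refine bound_step (f := fun b => W1 w (C, b) - W2 w (C, 0) b)
      (f' := fun b => W2 w (C, b) - W2 w (C, 0)) (m := 1) (R := R) hK0 ?_ ?_ ?_ b hb
    · intro b
      exact (hasFDerivAt_W1 hw C b).sub (W2 w (C, 0)).hasFDerivAt
    · simp [h1 C]
    · intro c hc
      rw [pow_one]
      exact hK C c hC hc
  have e2 := bound_step (f := fun b => w (C, b) - w (C, 0) - 1 / 2 * W2 w (C, 0) b b)
    (f' := fun b => W1 w (C, b) - W2 w (C, 0) b) (m := 2) (R := R) hK0 ?_ ?_ e1 a ha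
  · exact e2
  · intro b
    have h3 : HasFDerivAt (fun b : F => W2 w (C, 0) b b)
        ((W2 w (C, 0) b) + (W2 w (C, 0)).flip b) b := by
      have := (W2 w (C, 0)).hasFDerivAt (x := b)
      have h4 := this.clm_apply (hasFDerivAt_id (𝕜 := ℝ) b)
      refine h4.congr_fderiv ?_
      ext v
      simp
    have h5 := ((hasFDerivAt_w hw C b).sub_const (w (C, 0))).sub (h3.const_mul (1 / 2))
    refine h5.congr_fderiv ?_
    ext v
    simp only [FunLike.coe_sub, Pi.sub_apply, FunLike.coe_smul,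
      Pi.smul_apply, add_apply, ContinuousLinearMap.flip_apply, smul_eq_mul]
    rw [W2_symm hw C 0 v b]
    ring
  · simp

/-- pointwise form -/
theorem taylor_lim (hw : ContDiff ℝ ∞ w) (h1 : ∀ C, W1 w (C, 0) = 0) (C : E) (a : F) :
    Tendsto (fun t : ℝ => (w (C, t • a) - w (C, 0)) / t ^ 2) (𝓝[≠] 0)
      (𝓝 (1 / 2 * W2 w (C, 0) a a)) := by
  obtain ⟨K, hK0, hK⟩ := taylor3 hw h1 (max ‖C‖ ‖a‖)
  rw [tendsto_iff_norm_sub_tendsto_zero]
  have hz : Tendsto (fun t : ℝ => K * ‖a‖ ^ 3 * |t|) (𝓝[≠] 0) (𝓝 0) := by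
    have : Tendsto (fun t : ℝ => K * ‖a‖ ^ 3 * |t|) (𝓝 0) (𝓝 (K * ‖a‖ ^ 3 * |0|)) :=
      (continuous_const.mul continuous_abs).tendsto 0
    rw [abs_zero, mul_zero] at this
    exact this.mono_left nhdsWithin_le_nhds
  refine squeeze_zero' (Eventually.of_forall fun _ => norm_nonneg _) ?_ hz
  have hev : ∀ᶠ t : ℝ in 𝓝[≠] 0, |t| < 1 := by
    have : ∀ᶠ t : ℝ in 𝓝 0, |t| < 1 := by
      have := Metric.ball_mem_nhds (0 : ℝ) one_pos
      filter_upwards [this] with t ht
      simpa using ht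
    exact this.filter_mono nhdsWithin_le_nhds
  filter_upwards [hev, self_mem_nhdsWithin] with t ht ht0
  have ht0' : t ≠ 0 := ht0
  have hta : ‖t • a‖ = |t| * ‖a‖ := by rw [norm_smul, Real.norm_eq_abs]
  have h2 := hK C (t • a) (le_max_left _ _) (by
    rw [hta]
    refine le_trans ?_ (le_max_right _ _)
    nlinarith [norm_nonneg a, abs_nonneg t])
  rw [hta] at h2
  simp only [map_smul, FunLike.coe_smul, Pi.smul_apply, smul_eq_mul] at h2
  have e : (w (C, t • a) - w (C, 0)) / t ^ 2 - 1 / 2 * W2 w (C, 0) a a =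
      (w (C, t • a) - w (C, 0) - 1 / 2 * (t * (t * W2 w (C, 0) a a))) / t ^ 2 := by
    field_simp
  rw [e, Real.norm_eq_abs, abs_div, abs_of_nonneg (sq_nonneg t), div_le_iff₀ (by positivity)]
  refine h2.trans (le_of_eq ?_)
  rw [← sq_abs t]
  ring

/-- second order Taylor formula for a smooth function -/
theorem taylor2 {f : E → V} (hf : ContDiff ℝ ∞ f) (R : ℝ) :
    ∃ K : ℝ, 0 ≤ K ∧ ∀ C, ‖C‖ ≤ R → ‖f C - f 0 - fderiv ℝ f 0 C‖ ≤ K * ‖C‖ ^ 2 := by
  have hg : ContDiff ℝ 1 (fun x : E × E => fderiv ℝ f x.2 - fderiv ℝ f 0) := by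
    have h2 : ContDiff ℝ 1 (fderiv ℝ f) := (hf.fderiv_right (m := ∞) (by simp)).of_le (by simp)
    exact (h2.comp contDiff_snd).sub contDiff_const
  obtain ⟨K, hK0, hK⟩ := bound_zero hg (fun C => sub_self _) R
  refine ⟨K, hK0, fun C hC => ?_⟩
  refine bound_step (f := fun C => f C - f 0 - fderiv ℝ f 0 C)
    (f' := fun C => fderiv ℝ f C - fderiv ℝ f 0) (m := 1) (R := R) hK0 ?_ ?_ ?_ C hC
  · intro C
    exact (((hf.differentiable (by simp) C).hasFDerivAt).sub_const _).sub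
      (fderiv ℝ f 0).hasFDerivAt
  · simp
  · intro c hc
    rw [pow_one]
    exact hK 0 c (by simpa using (norm_nonneg c).trans hc) hc

end general

end Pool.Agent.Q149.LU
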