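import Pool.Agent.Q149.LU.BCH

/-!
# The magnetic energy on the constants (proof of `S_TAY0`)
-/

set_option autoImplicit false

namespace Pool.Agent.Q149.LU

open Pool.Agent.Q77.LU
open Matrix Set Filter Topology
open scoped ContDiff Matrix.Norms.Frobenius

variable {N n D l : ℕ} {G : Subgroup (UU N)}

theorem mt_unit (g : G) : mt g * (mt g)ᴴ = 1 := (Unitary.mem_iff.1 g.1.2).2

theorem mt_unit' (g : G) : (mt g)ᴴ * mt g = 1 := (Unitary.mem_iff.1 g.1.2).1

theorem mt_one : mt (1 : G) = 1 := rfl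

theorem mt_mul' (g h : G) : mt (g * h) = mt g * mt h := rfl

theorem mt_inv (g : G) : mt g⁻¹ = (mt g)ᴴ := rfl

/-- The basis elements are skew Hermitian. -/
theorem skewX (B : LieBasis G n) (a : Fin n) : (B.X a)ᴴ = -B.X a := by
  have h1 := hasDerivAt_exp_smul_const (𝕂 := ℝ) ((B.X a)ᴴ) 0
  have h2 := hasDerivAt_exp_smul_const (𝕂 := ℝ) (B.X a) 0
  have h3 := h1.mul h2
  have h3' : HasDerivAt (fun _ : ℝ => (1 : Mt N)) (NormedSpace.exp ((0 : ℝ) • (B.X a)ᴴ) * (B.X a)ᴴ *
      NormedSpace.exp ((0 : ℝ) • B.X a) + NormedSpace.exp ((0 : ℝ) • (B.X a)ᴴ) *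
        (NormedSpace.exp ((0 : ℝ) • B.X a) * B.X a)) 0 := by
    refine h3.congr_of_eventuallyEq (Eventually.of_forall fun u => ?_)
    have h4 := mt_unit' (B.ex a u)
    rw [B.ex_eq, ← Matrix.exp_conjTranspose, conjTranspose_smul, star_trivial] at h4
    exact h4.symm
  have h5 := h3'.unique (hasDerivAt_const (0 : ℝ) (1 : Mt N))
  simp only [zero_smul, NormedSpace.exp_zero, Matrix.one_mul, Matrix.mul_one] at h5
  exact eq_neg_of_add_eq_zero_left h5

theorem skewLin (B : LieBasis G n) (v : Fin n → ℝ) : (lin B v)ᴴ = -lin B v := by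
  unfold lin
  rw [conjTranspose_sum, ← Finset.sum_neg_distrib]
  refine Finset.sum_congr rfl fun a _ => ?_
  rw [conjTranspose_smul, star_trivial, skewX, smul_neg]

theorem lin_smul (B : LieBasis G n) (s : ℝ) (v : Fin n → ℝ) :
    lin B (fun a => s * v a) = s • lin B v := by
  unfold lin
  rw [Finset.smul_sum]
  exact Finset.sum_congr rfl fun a _ => by rw [mul_smul]

theorem lin_add (B : LieBasis G n) (v w : Fin n → ℝ) :
    lin B (fun a => v a + w a) = lin B v + lin B w := by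
  unfold lin
  rw [← Finset.sum_add_distrib]
  exact Finset.sum_congr rfl fun a _ => by rw [add_smul]

/-- real scalar product of matrices -/
theorem re_trace_lin (B : LieBasis G n) (v w : Fin n → ℝ) :
    (trace ((lin B v)ᴴ * lin B w)).re = ∑ a, v a * w a := by
  unfold lin
  rw [conjTranspose_sum, Finset.sum_mul]
  simp only [Finset.mul_sum, trace_sum, Complex.re_sum, conjTranspose_smul, star_trivial,
    Matrix.smul_mul, Matrix.mul_smul, trace_smul, Complex.smul_re, smul_eq_mul, B.orth]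
  refine Finset.sum_congr rfl fun a _ => ?_
  rw [Finset.sum_eq_single a]
  · simp [mul_comm]
  · intro b _ hb
    rw [if_neg (Ne.symm hb)]
    ring
  · simp

theorem fro2_lin (B : LieBasis G n) (v : Fin n → ℝ) : fro2 (lin B v) = n2 v := by
  unfold fro2 n2
  rw [re_trace_lin]
  exact Finset.sum_congr rfl fun a _ => by ring

theorem norm_lin (B : LieBasis G n) (v : Fin n → ℝ) : ‖lin B v‖ = nr v := by
  unfold nr
  rw [← fro2_lin B, fro2_eq, Real.sqrt_sq (norm_nonneg _)]

theorem mt_eG (h0 : S_EXPG) (hG : IsClosed (G : Set (UU N))) (B : LieBasis G n)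
    (v : Fin n → ℝ) : mt (eG B v) = NormedSpace.exp (lin B v) := by
  have h := h0 N n G hG B v
  unfold eG
  rw [dif_pos h]
  exact h.choose_spec

theorem fro2_smul (s : ℝ) (A : Mt N) : fro2 (s • A) = s ^ 2 * fro2 A := by
  rw [fro2_eq, fro2_eq, norm_smul, mul_pow, Real.norm_eq_abs, sq_abs]

theorem fro2_nonneg (A : Mt N) : 0 ≤ fro2 A := by
  rw [fro2_eq]; positivity

theorem n2_nonneg {ι : Type} [Fintype ι] (x : ι → ℝ) : 0 ≤ n2 x :=
  Finset.sum_nonneg fun _ _ => sq_nonneg _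

theorem nr_comp_le (C : Fin D × Fin n → ℝ) (i : Fin D) : nr (fun a => C (i, a)) ≤ nr C := by
  unfold nr
  refine Real.sqrt_le_sqrt ?_
  unfold n2
  rw [Fintype.sum_prod_type]
  exact Finset.single_le_sum (f := fun i : Fin D => ∑ a, C (i, a) ^ 2)
    (fun j _ => Finset.sum_nonneg fun _ _ => sq_nonneg _) (Finset.mem_univ i)

theorem t_TAY0 (h0 : S_EXPG) (h : S_BCH) : S_TAY0 := by
  intro N n D l _ G hG B dc
  obtain ⟨K0, hK0, hK⟩ := h N
  refine ⟨4 * K0, 1, by positivity, one_pos, ?_⟩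
  intro C hC
  set s : ℝ := (Real.sqrt ((l : ℝ) ^ D))⁻¹ with hs
  have hl : 1 ≤ (l : ℝ) := by exact_mod_cast Nat.one_le_iff_ne_zero.2 (NeZero.ne l)
  have hlD : 1 ≤ (l : ℝ) ^ D := one_le_pow₀ hl
  have hsq : 1 ≤ Real.sqrt ((l : ℝ) ^ D) := by
    rw [show (1 : ℝ) = Real.sqrt 1 by simp]
    exact Real.sqrt_le_sqrt hlD
  have hs0 : 0 ≤ s := by rw [hs]; positivity
  have hs1 : s ≤ 1 := inv_le_one_of_one_le₀ hsq
  have hs2 : s ^ 2 = ((l : ℝ) ^ D)⁻¹ := by
    rw [hs, inv_pow, Real.sq_sqrt (by positivity)]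
  -- the links
  set L : Fin D → Mt N := fun i => lin B (fun a => C (i, a)) with hL
  have hch : ∀ e : Link D l, mt (dc.ch (C, 0) e) = NormedSpace.exp (s • L e.2) := by
    intro e
    show mt (eG B fun a => dc.xi (C, 0) (e, a)) = _
    rw [mt_eG h0 hG, hL, ← lin_smul]
    congr 2
    funext a
    simp [Dec.xi, cons, hs]
  have hLs : ∀ i, (L i)ᴴ = -L i := fun i => skewLin B _
  have hpl : ∀ (x : Fin D → ZMod l) (i j : Fin D), mt (plaq (dc.ch (C, 0)) x i j) =
      NormedSpace.exp (s • L i) * NormedSpace.exp (s • L j) * NormedSpace.exp (-(s • L i)) *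
        NormedSpace.exp (-(s • L j)) := by
    intro x i j
    unfold plaq
    rw [mt_mul', mt_mul', mt_mul', mt_inv, mt_inv, hch, hch, hch, hch,
      exp_conjT (skew_smul (hLs i) s), exp_conjT (skew_smul (hLs j) s)]
  -- norms
  have hnC : nr C ≤ 1 := by
    unfold nr
    rw [show (1 : ℝ) = Real.sqrt 1 by simp]
    exact Real.sqrt_le_sqrt (by simpa using hC)
  have hn : ∀ i, ‖s • L i‖ ≤ nr C := by
    intro i
    rw [norm_smul, Real.norm_eq_abs, abs_of_nonneg hs0, hL, norm_lin]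
    have h1 := nr_comp_le C i
    have h2 : 0 ≤ nr (fun a => C (i, a)) := Real.sqrt_nonneg _
    nlinarith
  set c : Fin D → Fin D → ℝ := fun i j => fro2 (L i * L j - L j * L i) with hc
  have hcn : ∀ i j, 0 ≤ c i j := fun i j => fro2_nonneg _
  have hcs : ∀ i j, fro2 (s • L i * s • L j - s • L j * s • L i) = s ^ 4 * c i j := by
    intro i j
    have : s • L i * s • L j - s • L j * s • L i = (s ^ 2) • (L i * L j - L j * L i) := by
      simp only [Matrix.smul_mul, Matrix.mul_smul, smul_smul, smul_sub]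
      ring_nf
    rw [this, fro2_smul]
    ring
  have hmain : ∀ i j, |(trace (1 - NormedSpace.exp (s • L i) * NormedSpace.exp (s • L j) *
      NormedSpace.exp (-(s • L i)) * NormedSpace.exp (-(s • L j)))).re -
      1 / 2 * (s ^ 4 * c i j)| ≤ 2 * K0 * nr C * (s ^ 4 * c i j) := by
    intro i j
    have h1 := hK (s • L i) (s • L j) (skew_smul (hLs i) s) (skew_smul (hLs j) s)
      ((hn i).trans hnC) ((hn j).trans hnC)
    rw [hcs] at h1
    refine h1.trans ?_
    have h2 := hn i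
    have h3 := hn j
    have h4 : 0 ≤ s ^ 4 * c i j := mul_nonneg (by positivity) (hcn i j)
    refine mul_le_mul_of_nonneg_right ?_ h4
    nlinarith
  -- the sum
  have hcard : (Fintype.card (Fin D → ZMod l) : ℝ) = (l : ℝ) ^ D := by
    rw [Fintype.card_fun, ZMod.card, Fintype.card_fin]
    push_cast
    rfl
  set T : Fin D → Fin D → ℝ := fun i j => (trace (1 - NormedSpace.exp (s • L i) *
    NormedSpace.exp (s • L j) * NormedSpace.exp (-(s • L i)) *
    NormedSpace.exp (-(s • L j)))).re with hT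
  have hmag : magnetic (dc.ch (C, 0)) = (l : ℝ) ^ D * ∑ i, ∑ j, if i < j then T i j else 0 := by
    unfold magnetic
    simp only [hpl]
    rw [Finset.sum_const, Finset.card_univ, nsmul_eq_mul, hcard]
  have hvr : vred B D C = 1 / 2 * ∑ i, ∑ j, if i < j then c i j else 0 := rfl
  have hl4 : (l : ℝ) ^ D * s ^ 4 = ((l : ℝ) ^ D)⁻¹ := by
    have : s ^ 4 = (s ^ 2) ^ 2 := by ring
    rw [this, hs2]
    field_simp
  set S : ℝ := ∑ i, ∑ j, if i < j then c i j else 0 with hS
  have hS0 : 0 ≤ S := Finset.sum_nonneg fun i _ => Finset.sum_nonneg fun j _ => by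
    split_ifs
    · exact hcn i j
    · exact le_rfl
  have hdiff : |(∑ i, ∑ j, if i < j then T i j else 0) - 1 / 2 * s ^ 4 * S| ≤
      2 * K0 * nr C * s ^ 4 * S := by
    have e1 : (∑ i, ∑ j, if i < j then T i j else 0) - 1 / 2 * s ^ 4 * S =
        ∑ i, ∑ j, if i < j then (T i j - 1 / 2 * (s ^ 4 * c i j)) else 0 := by
      rw [hS, Finset.mul_sum, ← Finset.sum_sub_distrib]
      refine Finset.sum_congr rfl fun i _ => ?_
      rw [Finset.mul_sum, ← Finset.sum_sub_distrib]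
      refine Finset.sum_congr rfl fun j _ => ?_
      split_ifs <;> ring
    have e2 : 2 * K0 * nr C * s ^ 4 * S =
        ∑ i, ∑ j, if i < j then 2 * K0 * nr C * (s ^ 4 * c i j) else 0 := by
      rw [hS, Finset.mul_sum]
      refine Finset.sum_congr rfl fun i _ => ?_
      rw [Finset.mul_sum]
      refine Finset.sum_congr rfl fun j _ => ?_
      split_ifs <;> ring
    rw [e1, e2]
    refine (Finset.abs_sum_le_sum_abs _ _).trans (Finset.sum_le_sum fun i _ => ?_)
    refine (Finset.abs_sum_le_sum_abs _ _).trans (Finset.sum_le_sum fun j _ => ?_)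
    split_ifs
    · exact hmain i j
    · simp
  rw [hmag, hvr]
  have e3 : (l : ℝ) ^ D * (∑ i, ∑ j, if i < j then T i j else 0) -
      ((l : ℝ) ^ D)⁻¹ * (1 / 2 * S) =
      (l : ℝ) ^ D * ((∑ i, ∑ j, if i < j then T i j else 0) - 1 / 2 * s ^ 4 * S) := by
    rw [mul_sub, ← hl4]
    ring
  rw [e3, abs_mul, abs_of_nonneg (by positivity : (0 : ℝ) ≤ (l : ℝ) ^ D)]
  have hnr : 0 ≤ nr C := Real.sqrt_nonneg _
  calc (l : ℝ) ^ D * |(∑ i, ∑ j, if i < j then T i j else 0) - 1 / 2 * s ^ 4 * S|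
      ≤ (l : ℝ) ^ D * (2 * K0 * nr C * s ^ 4 * S) := by gcongr
    _ = ((l : ℝ) ^ D * s ^ 4) * (2 * K0 * nr C * S) := by ring
    _ = ((l : ℝ) ^ D)⁻¹ * (2 * K0 * nr C * S) := by rw [hl4]
    _ ≤ 1 * (2 * K0 * nr C * S) := by
        refine mul_le_mul_of_nonneg_right (inv_le_one_of_one_le₀ hlD) ?_
        positivity
    _ = 4 * K0 * nr C * (1 / 2 * S) := by ring

end Pool.Agent.Q149.LU
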