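import Pool.Agent.Q149.LU.TB

/-!
# Taylor expansion of the magnetic energy in the chart (proof of `S_TAYL`)
-/

set_option autoImplicit false
set_option linter.unusedSectionVars false

namespace Pool.Agent.Q149.LU.T

open Pool.Agent.Q77.LU
open Pool.Agent.Q149.LU (contDiff_expM W1 W2 taylor3 taylor_lim taylor2 W1_smooth W2_smooth W2_symm)
open Matrix Set Filter Topology
open scoped ContDiff Matrix.Norms.Frobenius

/-! ### linear algebra -/

section linalg

variable {ι : Type} [Fintype ι] [DecidableEq ι]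

theorem quad_zero {S : Matrix ι ι ℝ} (hS : S.IsSymm)
    (h : ∀ a : ι → ℝ, a ⬝ᵥ (S.mulVec a) = 0) : S = 0 := by
  have hb : ∀ a b : ι → ℝ, a ⬝ᵥ (S.mulVec b) = 0 := by
    intro a b
    have h1 := h (a + b)
    rw [mulVec_add, add_dotProduct, dotProduct_add, dotProduct_add, h a, h b] at h1
    have h2 : b ⬝ᵥ (S.mulVec a) = a ⬝ᵥ (S.mulVec b) := by
      rw [dotProduct_comm, ← vecMul_transpose, hS.eq, ← dotProduct_mulVec]
    linarith
  ext i j
  have h3 := hb (Pi.single i 1) (Pi.single j 1)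
  simpa using h3

theorem quad_ext {S T : Matrix ι ι ℝ} (hS : S.IsSymm) (hT : T.IsSymm)
    (h : ∀ a : ι → ℝ, a ⬝ᵥ (S.mulVec a) = a ⬝ᵥ (T.mulVec a)) : S = T := by
  have h1 : S - T = 0 := quad_zero (hS.sub hT) fun a => by
    rw [sub_mulVec, dotProduct_sub, h, sub_self]
  exact sub_eq_zero.1 h1

/-- the trace with the inverse of a diagonal matrix is invariant -/
theorem trace_inv {om : ι → ℝ} (hom : ∀ i, 0 < om i) {R A A' : Matrix ι ι ℝ}
    (hA : A.IsSymm) (hA' : A'.IsSymm)
    (h1 : ∀ a : ι → ℝ, (R.mulVec a) ⬝ᵥ (R.mulVec a) = a ⬝ᵥ a)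
    (h2 : ∀ a : ι → ℝ, (R.mulVec a) ⬝ᵥ ((diagonal om).mulVec (R.mulVec a)) =
      a ⬝ᵥ ((diagonal om).mulVec a))
    (h3 : ∀ a : ι → ℝ, (R.mulVec a) ⬝ᵥ (A'.mulVec (R.mulVec a)) = a ⬝ᵥ (A.mulVec a)) :
    ∑ i, A' i i / om i = ∑ i, A i i / om i := by
  have e : ∀ (M : Matrix ι ι ℝ) (a : ι → ℝ), (R.mulVec a) ⬝ᵥ (M.mulVec (R.mulVec a)) =
      a ⬝ᵥ ((Rᵀ * M * R).mulVec a) := by
    intro M a
    rw [← mulVec_mulVec, ← mulVec_mulVec, dotProduct_mulVec a Rᵀ, vecMul_transpose]
  have hs : ∀ M : Matrix ι ι ℝ, M.IsSymm → (Rᵀ * M * R).IsSymm := by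
    intro M hM
    unfold Matrix.IsSymm
    rw [transpose_mul, transpose_mul, transpose_transpose, hM.eq, Matrix.mul_assoc]
  have k1 : Rᵀ * R = 1 := by
    have := quad_ext (hs 1 isSymm_one) isSymm_one (fun a => by
      rw [← e, one_mulVec, one_mulVec, h1])
    rwa [Matrix.mul_one] at this
  have k1' : R * Rᵀ = 1 := mul_eq_one_comm.1 k1
  have k2 : Rᵀ * diagonal om * R = diagonal om :=
    quad_ext (hs _ (isSymm_diagonal om)) (isSymm_diagonal om) fun a => by rw [← e, h2]
  have k3 : Rᵀ * A' * R = A := quad_ext (hs _ hA') hA fun a => by rw [← e, h3]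
  set Oi : Matrix ι ι ℝ := diagonal fun i => (om i)⁻¹ with hOi
  have o1 : diagonal om * Oi = 1 := by
    rw [hOi, diagonal_mul_diagonal]
    rw [← diagonal_one]
    congr 1
    funext i
    exact mul_inv_cancel₀ (hom i).ne'
  have o2 : Oi * diagonal om = 1 := by
    rw [hOi, diagonal_mul_diagonal]
    rw [← diagonal_one]
    congr 1
    funext i
    exact inv_mul_cancel₀ (hom i).ne'
  have k4 : diagonal om * R = R * diagonal om := by
    calc diagonal om * R = (R * Rᵀ) * (diagonal om * R) := by rw [k1', Matrix.one_mul]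
      _ = R * (Rᵀ * diagonal om * R) := by simp only [Matrix.mul_assoc]
      _ = R * diagonal om := by rw [k2]
  have k5 : R * Oi = Oi * R := by
    calc R * Oi = Oi * diagonal om * (R * Oi) := by rw [o2, Matrix.one_mul]
      _ = Oi * (diagonal om * R) * Oi := by simp only [Matrix.mul_assoc]
      _ = Oi * (R * diagonal om) * Oi := by rw [k4]
      _ = Oi * R * (diagonal om * Oi) := by simp only [Matrix.mul_assoc]
      _ = Oi * R := by rw [o1, Matrix.mul_one]
  have t : ∀ M : Matrix ι ι ℝ, ∑ i, M i i / om i = trace (Oi * M) := by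
    intro M
    unfold trace
    refine Finset.sum_congr rfl fun i _ => ?_
    rw [diag_apply, hOi, diagonal_mul]
    rw [div_eq_inv_mul]
  rw [t, t, ← k3]
  calc trace (Oi * A') = trace (Oi * (R * Rᵀ) * A') := by rw [k1', Matrix.mul_one]
    _ = trace ((Oi * R) * (Rᵀ * A')) := by simp only [Matrix.mul_assoc]
    _ = trace ((R * Oi) * (Rᵀ * A')) := by rw [k5]
    _ = trace (R * (Oi * Rᵀ * A')) := by simp only [Matrix.mul_assoc]
    _ = trace ((Oi * Rᵀ * A') * R) := trace_mul_comm _ _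
    _ = trace (Oi * (Rᵀ * A' * R)) := by simp only [Matrix.mul_assoc]

end linalg

/-! ### an invariant linear functional vanishes -/

section inv

variable {N n D : ℕ} {G : Subgroup (UU N)}

theorem adF_single (B : LieBasis G n) (h : G) (i : Fin D) (v : Fin n → ℝ) :
    adF B h (fun p : Fin D × Fin n => if p.1 = i then v p.2 else 0) =
      fun p => if p.1 = i then Ad B h v p.2 else 0 := by
  funext p
  unfold adF
  by_cases hp : p.1 = i
  · simp only [hp, if_true]
  · simp only [hp, if_false]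
    have : Ad B h (fun _ => (0 : ℝ)) = 0 := by
      have h0 := Ad_smul B h 0 (0 : Fin n → ℝ)
      rw [zero_smul, zero_smul] at h0
      exact h0
    rw [this]
    rfl

theorem inv_functional (B : LieBasis G n) (hB : NoCentre B) (φ : (Fin D × Fin n → ℝ) →ₗ[ℝ] ℝ)
    (hφ : ∀ (h : G) C, φ (adF B h C) = φ C) : φ = 0 := by
  classical
  -- the vector representing `φ` on the direction `i`
  have key : ∀ (i : Fin D) (v : Fin n → ℝ), φ (fun p => if p.1 = i then v p.2 else 0) = 0 := by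
    intro i
    set u : Fin n → ℝ := fun a => φ (fun p => if p.1 = i then (Pi.single a 1 : Fin n → ℝ) p.2 else 0)
      with hu
    have hrep : ∀ v : Fin n → ℝ, φ (fun p => if p.1 = i then v p.2 else 0) = ∑ a, u a * v a := by
      intro v
      have hv : (fun p : Fin D × Fin n => if p.1 = i then v p.2 else 0) =
          ∑ a, v a • (fun p : Fin D × Fin n => if p.1 = i then (Pi.single a 1 : Fin n → ℝ) p.2
            else 0) := by
        funext p
        rw [Finset.sum_apply]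
        by_cases hp : p.1 = i
        · simp only [Pi.smul_apply, hp, if_true, smul_eq_mul]
          rw [Finset.sum_eq_single p.2]
          · simp
          · intro b _ hb
            simp [Pi.single_eq_of_ne (Ne.symm hb)]
          · simp
        · simp [hp]
      rw [hv, map_sum]
      refine Finset.sum_congr rfl fun a _ => ?_
      rw [map_smul, smul_eq_mul, mul_comm]
    have hinv : ∀ (h : G) (v : Fin n → ℝ), ∑ a, u a * Ad B h v a = ∑ a, u a * v a := by
      intro h v
      have h1 := hφ h (fun p => if p.1 = i then v p.2 else 0)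
      rw [adF_single] at h1
      rw [← hrep, ← hrep]
      exact h1
    have hfix : ∀ h : G, Ad B h u = u := by
      intro h
      have h1 : n2 (Ad B h u) = n2 u := n2_Ad B h u
      have h2 := hinv h u
      have h3 : ∑ a, (Ad B h u a - u a) ^ 2 = 0 := by
        have e : ∀ a, (Ad B h u a - u a) ^ 2 =
            Ad B h u a ^ 2 - 2 * (u a * Ad B h u a) + u a * u a := fun a => by ring
        simp only [e, Finset.sum_add_distrib, Finset.sum_sub_distrib, ← Finset.mul_sum]
        rw [h2]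
        unfold n2 at h1
        rw [h1]
        have : ∑ a, u a ^ 2 = ∑ a, u a * u a := Finset.sum_congr rfl fun a _ => by ring
        rw [this]
        ring
      funext a
      have h4 := (Finset.sum_eq_zero_iff_of_nonneg (fun a _ => sq_nonneg (Ad B h u a - u a))).1 h3
        a (Finset.mem_univ a)
      have h5 := pow_eq_zero_iff (two_ne_zero) |>.1 h4
      linarith
    have hu0 : u = 0 := by
      apply hB
      intro a
      have hc : ∀ t : ℝ, NormedSpace.exp (t • B.X a) * lin B u = lin B u * NormedSpace.exp (t • B.X a) := by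
        intro t
        have h1 := lin_Ad B (B.ex a t) u
        rw [hfix, B.ex_eq] at h1
        have h2 := mt_unit' (B.ex a t)
        rw [B.ex_eq] at h2
        calc NormedSpace.exp (t • B.X a) * lin B u
            = NormedSpace.exp (t • B.X a) * lin B u *
              ((NormedSpace.exp (t • B.X a))ᴴ * NormedSpace.exp (t • B.X a)) := by
              rw [h2, Matrix.mul_one]
          _ = (NormedSpace.exp (t • B.X a) * lin B u * (NormedSpace.exp (t • B.X a))ᴴ) *
              NormedSpace.exp (t • B.X a) := by simp only [Matrix.mul_assoc]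
          _ = lin B u * NormedSpace.exp (t • B.X a) := by rw [← h1]
      have h1 := (hasDerivAt_exp_smul_const (𝕂 := ℝ) (B.X a) (0 : ℝ)).mul_const (lin B u)
      have h2 := (hasDerivAt_exp_smul_const (𝕂 := ℝ) (B.X a) (0 : ℝ)).const_mul (lin B u)
      have h1' := h1.congr_of_eventuallyEq (f₁ := fun t : ℝ => lin B u * NormedSpace.exp (t • B.X a))
        (Eventually.of_forall fun t => (hc t).symm)
      have h3 := h1'.unique h2
      simp only [zero_smul, NormedSpace.exp_zero, Matrix.one_mul] at h3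
      exact h3.symm
    intro v
    rw [hrep, hu0]
    simp
  refine LinearMap.ext fun C => ?_
  rw [LinearMap.zero_apply]
  have hC : C = ∑ i, (fun p : Fin D × Fin n => if p.1 = i then (fun a => C (i, a)) p.2 else 0) := by
    funext p
    rw [Finset.sum_apply, Finset.sum_eq_single p.1]
    · simp
    · intro b _ hb
      simp [Ne.symm hb]
    · simp
  rw [hC, map_sum]
  exact Finset.sum_eq_zero fun i _ => key i (fun a => C (i, a))

end inv

/-! ### the expansion -/

section bil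

variable {F : Type} [Fintype F] [DecidableEq F]

/-- a bilinear form in coordinates -/
theorem bil_coord (T : (F → ℝ) →L[ℝ] (F → ℝ) →L[ℝ] ℝ) (a b : F → ℝ) :
    T a b = a ⬝ᵥ ((Matrix.of fun i j => T (Pi.single i 1) (Pi.single j 1)).mulVec b) := by
  have ha : ∀ a : F → ℝ, a = ∑ i, a i • (Pi.single i 1 : F → ℝ) := by
    intro a
    funext k
    rw [Finset.sum_apply, Finset.sum_eq_single k]
    · simp
    · intro b _ hb
      simp [Pi.single_eq_of_ne (Ne.symm hb)]
    · simp
  conv_lhs => rw [ha a, ha b]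
  simp only [map_sum, map_smul, FunLike.coe_sum, Finset.sum_apply, FunLike.coe_smul,
    Pi.smul_apply, smul_eq_mul]
  unfold dotProduct mulVec dotProduct
  simp only [Matrix.of_apply, Finset.mul_sum]
  rw [Finset.sum_comm]
  refine Finset.sum_congr rfl fun i _ => Finset.sum_congr rfl fun j _ => ?_
  ring

end bil

section main

variable {N n D l : ℕ} [NeZero l] {G : Subgroup (UU N)} {B : LieBasis G n}

/-- the adjoint representation on fields is linear -/
noncomputable def adFL {ι : Type} (B : LieBasis G n) (h : G) :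
    (ι × Fin n → ℝ) →ₗ[ℝ] (ι × Fin n → ℝ) where
  toFun := adF B h
  map_add' y z := by
    funext p
    exact congrFun (Ad_add B h (fun c => y (p.1, c)) (fun c => z (p.1, c))) p.2
  map_smul' t y := by
    funext p
    exact congrFun (Ad_smul B h t (fun c => y (p.1, c))) p.2

noncomputable def xiL (dc : Dec B D l) :
    ((Fin D × Fin n → ℝ) × (Fin dc.M → ℝ)) →L[ℝ] (Link D l × Fin n → ℝ) :=
  LinearMap.toContinuousLinearMap
    { toFun := dc.xi
      map_add' := fun x y => by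
        funext p
        simp only [Dec.xi, cons, Prod.fst_add, Prod.snd_add, Pi.add_apply, add_mul,
          Finset.sum_add_distrib]
        ring
      map_smul' := fun t x => by
        funext p
        simp only [Dec.xi, cons, Prod.smul_fst, Prod.smul_snd, Pi.smul_apply, smul_eq_mul,
          RingHom.id_apply, mul_add, Finset.mul_sum]
        congr 1
        · ring
        · exact Finset.sum_congr rfl fun i _ => by ring }

theorem xiL_apply (dc : Dec B D l) (x : (Fin D × Fin n → ℝ) × (Fin dc.M → ℝ)) :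
    xiL dc x = dc.xi x := rfl

/-- the magnetic energy in the chart -/
noncomputable def wch (dc : Dec B D l) (x : (Fin D × Fin n → ℝ) × (Fin dc.M → ℝ)) : ℝ :=
  Fy B (dc.xi x)

theorem wch_eq (dc : Dec B D l) (x : (Fin D × Fin n → ℝ) × (Fin dc.M → ℝ)) :
    wch dc x = magnetic (dc.ch x) := rfl

theorem wch_smooth (h0 : S_EXPG) (hG : IsClosed (G : Set (UU N))) (dc : Dec B D l) :
    ContDiff ℝ ∞ (wch dc) :=
  (contDiff_Fy h0 hG B).comp (xiL dc).contDiff

theorem wch_W1 (h0 : S_EXPG) (hG : IsClosed (G : Set (UU N))) (dc : Dec B D l)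
    (C : Fin D × Fin n → ℝ) : W1 (wch dc) (C, 0) = 0 := by
  have hd : HasFDerivAt (Fy B) (fderiv ℝ (Fy B) (dc.xi (C, 0))) (xiL dc (C, 0)) :=
    ((contDiff_Fy h0 hG B).differentiable (by simp) _).hasFDerivAt
  have h1 : HasFDerivAt (wch dc) ((fderiv ℝ (Fy B) (dc.xi (C, 0))).comp (xiL dc)) (C, 0) :=
    hd.comp (C, 0) (xiL dc).hasFDerivAt
  unfold W1
  rw [h1.fderiv]
  refine ContinuousLinearMap.ext fun a => ?_
  have e1 : dc.xi (C, (0 : Fin dc.M → ℝ)) = cons D l C := by
    funext p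
    simp [Dec.xi]
  have e2 : (((fderiv ℝ (Fy B) (dc.xi (C, 0))).comp (xiL dc)).comp
      (ContinuousLinearMap.inr ℝ (Fin D × Fin n → ℝ) (Fin dc.M → ℝ))) a =
      fderiv ℝ (Fy B) (dc.xi (C, 0)) (dc.xi (0, a)) := rfl
  rw [e2, e1, FunLike.coe_zero, Pi.zero_apply]
  refine fderiv_mean h0 hG B C _ fun j c => ?_
  simp only [Dec.xi, cons, Pi.zero_apply, mul_zero, zero_add]
  rw [Finset.sum_comm]
  refine Finset.sum_eq_zero fun i _ => ?_
  rw [← Finset.mul_sum, dc.mean, mul_zero]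

/-- the second derivative in the oscillators on the constants -/
noncomputable def Hc (dc : Dec B D l) (C : Fin D × Fin n → ℝ) :
    (Fin dc.M → ℝ) →L[ℝ] (Fin dc.M → ℝ) →L[ℝ] ℝ := W2 (wch dc) (C, 0)

theorem Hc_smooth (h0 : S_EXPG) (hG : IsClosed (G : Set (UU N))) (dc : Dec B D l) :
    ContDiff ℝ ∞ (Hc dc) :=
  (W2_smooth (wch_smooth h0 hG dc)).comp (contDiff_id.prodMk contDiff_const)

/-- its derivative at the origin -/
noncomputable def dH (dc : Dec B D l) :
    (Fin D × Fin n → ℝ) →L[ℝ] (Fin dc.M → ℝ) →L[ℝ] (Fin dc.M → ℝ) →L[ℝ] ℝ :=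
  fderiv ℝ (Hc dc) 0

theorem Hc_line (h0 : S_EXPG) (hG : IsClosed (G : Set (UU N))) (dc : Dec B D l)
    (C : Fin D × Fin n → ℝ) (a b : Fin dc.M → ℝ) :
    HasDerivAt (fun s : ℝ => Hc dc (s • C) a b) (dH dc C a b) 0 := by
  have h1 : HasFDerivAt (Hc dc) (fderiv ℝ (Hc dc) ((0 : ℝ) • C)) ((0 : ℝ) • C) :=
    ((Hc_smooth h0 hG dc).differentiable (by simp) _).hasFDerivAt
  have h2 : HasDerivAt (fun s : ℝ => s • C) C 0 := by
    have := (hasDerivAt_id (0 : ℝ)).smul_const C
    simpa using this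
  have h3 := (h1.clm_apply (hasFDerivAt_const a ((0 : ℝ) • C))).clm_apply
    (hasFDerivAt_const b ((0 : ℝ) • C))
  have h4 := h3.comp_hasDerivAt (0 : ℝ) h2
  refine h4.congr_deriv ?_
  unfold dH
  simp

theorem dH_symm (h0 : S_EXPG) (hG : IsClosed (G : Set (UU N))) (dc : Dec B D l)
    (C : Fin D × Fin n → ℝ) (a b : Fin dc.M → ℝ) : dH dc C a b = dH dc C b a := by
  have h1 := Hc_line h0 hG dc C a b
  have h2 := Hc_line h0 hG dc C b a
  refine h1.unique (h2.congr_of_eventuallyEq (Eventually.of_forall fun s => ?_))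
  exact W2_symm (wch_smooth h0 hG dc) (s • C) 0 a b

/-- the matrix `A` -/
noncomputable def AC (dc : Dec B D l) :
    (Fin D × Fin n → ℝ) →ₗ[ℝ] Matrix (Fin dc.M) (Fin dc.M) ℝ where
  toFun C := Matrix.of fun i j => dH dc C (Pi.single i 1) (Pi.single j 1)
  map_add' C C' := by
    ext i j
    simp
  map_smul' t C := by
    ext i j
    simp

theorem AC_quad (dc : Dec B D l) (C : Fin D × Fin n → ℝ) (a : Fin dc.M → ℝ) :
    a ⬝ᵥ ((AC dc C).mulVec a) = dH dc C a a := (bil_coord (dH dc C) a a).symm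

theorem AC_symm (h0 : S_EXPG) (hG : IsClosed (G : Set (UU N))) (dc : Dec B D l)
    (C : Fin D × Fin n → ℝ) : (AC dc C).IsSymm := by
  ext i j
  exact dH_symm h0 hG dc C _ _

/-- the quadratic form at the origin -/
theorem Hc_zero (h0 : S_EXPG) (hG : IsClosed (G : Set (UU N))) (dc : Dec B D l)
    (a : Fin dc.M → ℝ) : Hc dc 0 a a = ∑ i, dc.om i ^ 2 * a i ^ 2 := by
  have h1 := taylor_lim (wch_smooth h0 hG dc) (wch_W1 h0 hG dc) 0 a
  have h2 := tendsto_Fy h0 hG B (dc.xi (0, a))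
  have hz : wch dc (0, 0) = 0 := by
    have : dc.xi ((0 : Fin D × Fin n → ℝ), (0 : Fin dc.M → ℝ)) = 0 := by
      rw [← xiL_apply]
      exact map_zero (xiL dc)
    unfold wch Fy
    rw [this, eU_zero h0 hG]
    unfold magnetic
    refine Finset.sum_eq_zero fun x _ => Finset.sum_eq_zero fun i _ =>
      Finset.sum_eq_zero fun j _ => ?_
    have h1 : plaq (fun _ : Link D l => (1 : G)) x i j = 1 := by unfold plaq; simp
    rw [h1, mt_one, sub_self, trace_zero]
    simp
  have e : (fun t : ℝ => (wch dc (0, t • a) - wch dc (0, 0)) / t ^ 2) =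
      fun t : ℝ => Fy B (t • dc.xi (0, a)) / t ^ 2 := by
    funext t
    rw [hz, sub_zero]
    unfold wch
    have : dc.xi (0, t • a) = t • dc.xi (0, a) := by
      have h3 := (xiL dc).map_smul t (0, a)
      rw [Prod.smul_mk, smul_zero] at h3
      exact h3
    rw [this]
  rw [e] at h1
  have h3 := tendsto_nhds_unique h1 h2
  have h4 : Hc dc 0 a a = ∑ p, dc.xi (0, a) p *
      ((hess B (fun _ : Link D l => (1 : G))).mulVec (dc.xi (0, a))) p := by
    unfold Hc
    linarith
  rw [h4]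
  have e5 : dc.xi (0, a) = ∑ i, a i • dc.b i := by
    funext p
    simp [Dec.xi, cons, Finset.sum_apply]
  have e6 : (hess B (fun _ : Link D l => (1 : G))).mulVec (dc.xi (0, a)) =
      ∑ i, (a i * dc.om i ^ 2) • dc.b i := by
    rw [e5, Matrix.mulVec_sum]
    refine Finset.sum_congr rfl fun i _ => ?_
    rw [Matrix.mulVec_smul, dc.eig, smul_smul]
  rw [e6, e5]
  simp only [Finset.sum_apply, Pi.smul_apply, smul_eq_mul, Finset.sum_mul, Finset.mul_sum]
  rw [Finset.sum_comm]
  refine Finset.sum_congr rfl fun i _ => ?_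
  rw [Finset.sum_comm]
  rw [Finset.sum_eq_single i]
  · have h7 := dc.orth i i
    rw [if_pos rfl] at h7
    have : ∀ p, a i * dc.b i p * (a i * dc.om i ^ 2 * dc.b i p) =
        (dc.om i ^ 2 * a i ^ 2) * (dc.b i p * dc.b i p) := fun p => by ring
    refine (Finset.sum_congr rfl fun p _ => this p).trans ?_
    rw [← Finset.mul_sum, h7, mul_one]
  · intro j _ hj
    have h7 := dc.orth j i
    rw [if_neg hj] at h7
    have : ∀ p, a j * dc.b j p * (a i * dc.om i ^ 2 * dc.b i p) =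
        (a j * a i * dc.om i ^ 2) * (dc.b j p * dc.b i p) := fun p => by ring
    refine (Finset.sum_congr rfl fun p _ => this p).trans ?_
    rw [← Finset.mul_sum, h7, mul_zero]
  · simp

/-- the matrix of the adjoint action on the oscillators -/
noncomputable def Rm (dc : Dec B D l) (h : G) : Matrix (Fin dc.M) (Fin dc.M) ℝ :=
  fun i j => ∑ p, dc.b i p * adF B h (dc.b j) p

theorem sg_eq (dc : Dec B D l) (h : G) (C : Fin D × Fin n → ℝ) (a : Fin dc.M → ℝ) :
    dc.sg h (C, a) = (adF B h C, (Rm dc h).mulVec a) := by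
  unfold Dec.sg
  refine Prod.ext rfl ?_
  funext i
  show ∑ p, dc.b i p * adF B h (fun q => ∑ j, a j * dc.b j q) p = _
  have e : (fun q => ∑ j, a j * dc.b j q) = ∑ j, a j • dc.b j := by
    funext q
    simp [Finset.sum_apply]
  have e2 : adF B h (∑ j, a j • dc.b j) = ∑ j, a j • adF B h (dc.b j) := by
    have := map_sum (adFL B h) (fun j => a j • dc.b j) Finset.univ
    simp only [map_smul] at this
    exact this
  rw [e, e2]
  unfold mulVec dotProduct Rm
  simp only [Finset.sum_apply, Pi.smul_apply, smul_eq_mul, Finset.mul_sum, Finset.sum_mul]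
  rw [Finset.sum_comm]
  refine Finset.sum_congr rfl fun j _ => Finset.sum_congr rfl fun p _ => ?_
  ring

theorem wch_inv (h2 : S_SYMM) (hG : IsClosed (G : Set (UU N))) (dc : Dec B D l) (h : G)
    (C : Fin D × Fin n → ℝ) (a : Fin dc.M → ℝ) :
    wch dc (adF B h C, (Rm dc h).mulVec a) = wch dc (C, a) := by
  rw [← sg_eq, wch_eq, wch_eq, (h2 N n D l G hG B dc h (C, a)).1, magnetic_gauge]

theorem Hc_inv (h0 : S_EXPG) (h2 : S_SYMM) (hG : IsClosed (G : Set (UU N))) (dc : Dec B D l)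
    (h : G) (C : Fin D × Fin n → ℝ) (a : Fin dc.M → ℝ) :
    Hc dc (adF B h C) ((Rm dc h).mulVec a) ((Rm dc h).mulVec a) = Hc dc C a a := by
  have k1 := taylor_lim (wch_smooth h0 hG dc) (wch_W1 h0 hG dc) (adF B h C) ((Rm dc h).mulVec a)
  have k2 := taylor_lim (wch_smooth h0 hG dc) (wch_W1 h0 hG dc) C a
  have e : (fun t : ℝ => (wch dc (adF B h C, t • (Rm dc h).mulVec a) -
      wch dc (adF B h C, 0)) / t ^ 2) =
      fun t : ℝ => (wch dc (C, t • a) - wch dc (C, 0)) / t ^ 2 := by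
    funext t
    have e1 := wch_inv h2 hG dc h C (t • a)
    rw [Matrix.mulVec_smul] at e1
    have e2 := wch_inv h2 hG dc h C 0
    rw [Matrix.mulVec_zero] at e2
    rw [e1, e2]
  rw [e] at k1
  have := tendsto_nhds_unique k1 k2
  unfold Hc
  linarith

theorem dH_inv (h0 : S_EXPG) (h2 : S_SYMM) (hG : IsClosed (G : Set (UU N))) (dc : Dec B D l)
    (h : G) (C : Fin D × Fin n → ℝ) (a : Fin dc.M → ℝ) :
    dH dc (adF B h C) ((Rm dc h).mulVec a) ((Rm dc h).mulVec a) = dH dc C a a := by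
  have k1 := Hc_line h0 hG dc (adF B h C) ((Rm dc h).mulVec a) ((Rm dc h).mulVec a)
  have k2 := Hc_line h0 hG dc C a a
  refine k1.unique (k2.congr_of_eventuallyEq (Eventually.of_forall fun s => ?_))
  have e : s • adF B h C = adF B h (s • C) := ((adFL B h).map_smul s C).symm
  show Hc dc (s • adF B h C) _ _ = Hc dc (s • C) a a
  rw [e]
  exact Hc_inv h0 h2 hG dc h (s • C) a

theorem AC_trace (h0 : S_EXPG) (h2 : S_SYMM) (hG : IsClosed (G : Set (UU N)))
    (hB : NoCentre B) (dc : Dec B D l) (C : Fin D × Fin n → ℝ) :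
    ∑ i, AC dc C i i / dc.om i = 0 := by
  set φ : (Fin D × Fin n → ℝ) →ₗ[ℝ] ℝ :=
    { toFun := fun C => ∑ i, AC dc C i i / dc.om i
      map_add' := fun C C' => by
        simp only [map_add, Matrix.add_apply, add_div, Finset.sum_add_distrib]
      map_smul' := fun t C => by
        simp only [map_smul, Matrix.smul_apply, smul_eq_mul, RingHom.id_apply, Finset.mul_sum,
          mul_div_assoc] } with hφ
  have h3 : φ = 0 := by
    refine inv_functional B hB φ fun h C => ?_
    show ∑ i, AC dc (adF B h C) i i / dc.om i = ∑ i, AC dc C i i / dc.om i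
    have hs := fun a : Fin dc.M → ℝ => h2 N n D l G hG B dc h (C, a)
    refine trace_inv dc.ompos (R := Rm dc h) (AC_symm h0 hG dc C) (AC_symm h0 hG dc _) ?_ ?_ ?_
    · intro a
      have h4 := (hs a).2.2.1
      rw [sg_eq] at h4
      unfold n2 at h4
      unfold dotProduct
      simpa [sq] using h4
    · intro a
      have h4 := (hs a).2.2.2.1
      rw [sg_eq] at h4
      unfold dotProduct
      simp only [Matrix.mulVec_diagonal]
      have e : ∀ z : Fin dc.M → ℝ, ∑ i, z i * (dc.om i * z i) = ∑ i, dc.om i * z i ^ 2 :=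
        fun z => Finset.sum_congr rfl fun i _ => by ring
      rw [e, e]
      exact h4
    · intro a
      rw [AC_quad, AC_quad, dH_inv h0 h2 hG dc h C a]
  have h4 := congrArg (fun ψ : (Fin D × Fin n → ℝ) →ₗ[ℝ] ℝ => ψ C) h3
  exact h4

end main

theorem norm_le_nr {ι : Type} [Fintype ι] (x : ι → ℝ) : ‖x‖ ≤ nr x := by
  refine (pi_norm_le_iff_of_nonneg (Real.sqrt_nonneg _)).2 fun i => ?_
  rw [Real.norm_eq_abs, ← Real.sqrt_sq_eq_abs]
  refine Real.sqrt_le_sqrt ?_
  unfold n2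
  exact Finset.single_le_sum (f := fun i => x i ^ 2) (fun j _ => sq_nonneg _) (Finset.mem_univ i)

theorem nr_sq {ι : Type} [Fintype ι] (x : ι → ℝ) : nr x ^ 2 = n2 x :=
  Real.sq_sqrt (Finset.sum_nonneg fun _ _ => sq_nonneg _)

theorem n2_nonneg' {ι : Type} [Fintype ι] (x : ι → ℝ) : 0 ≤ n2 x :=
  Finset.sum_nonneg fun _ _ => sq_nonneg _

theorem vred_nonneg {N n : ℕ} {G : Subgroup (UU N)} (B : LieBasis G n) (D : ℕ)
    (C : Fin D × Fin n → ℝ) : 0 ≤ vred B D C := by
  unfold vred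
  refine mul_nonneg (by norm_num) (Finset.sum_nonneg fun i _ => Finset.sum_nonneg fun j _ => ?_)
  split_ifs
  · exact fro2_nonneg _
  · exact le_rfl

theorem t_TAYL (h0 : S_EXPG) (h1 : S_TAY0) (h2 : S_SYMM) : S_TAYL := by
  intro N n D l _ G hG B hB dc
  obtain ⟨K1, r1, hK1, hr1, hT0⟩ := h1 N n D l G hG B dc
  obtain ⟨K3, hK3, hT3⟩ := taylor3 (wch_smooth h0 hG dc) (wch_W1 h0 hG dc) 1
  obtain ⟨K2, hK2, hT2⟩ := taylor2 (Hc_smooth h0 hG dc) 1
  refine ⟨AC dc, K1 + K2 + K3, min 1 r1, by positivity, lt_min one_pos hr1,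
    AC_symm h0 hG dc, AC_trace h0 h2 hG hB dc, ?_⟩
  rintro ⟨C, a⟩ hx
  have hnx : n2 C + n2 a ≤ (min 1 r1) ^ 2 := hx
  have hC0 := n2_nonneg' C
  have ha0 := n2_nonneg' a
  have hm0 : 0 ≤ min 1 r1 := (lt_min one_pos hr1).le
  have hC1 : n2 C ≤ 1 := by
    have : (min 1 r1) ^ 2 ≤ 1 := by
      have := min_le_left 1 r1
      nlinarith
    linarith
  have ha1 : n2 a ≤ 1 := by
    have : (min 1 r1) ^ 2 ≤ 1 := by
      have := min_le_left 1 r1
      nlinarith
    linarith
  have hCr : n2 C ≤ r1 ^ 2 := by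
    have : (min 1 r1) ^ 2 ≤ r1 ^ 2 := by
      have := min_le_right 1 r1
      gcongr
    linarith
  have hCn : ‖C‖ ≤ 1 := (norm_le_nr C).trans (Real.sqrt_le_one.2 hC1)
  have han : ‖a‖ ≤ 1 := (norm_le_nr a).trans (Real.sqrt_le_one.2 ha1)
  have b1 := hT3 C a hCn han
  have b2 := hT0 C hCr
  have b3 := hT2 C hCn
  have b4 : |(Hc dc C - Hc dc 0 - dH dc C) a a| ≤ K2 * n2 C * n2 a := by
    have h3 : |(Hc dc C - Hc dc 0 - dH dc C) a a| ≤
        ‖Hc dc C - Hc dc 0 - dH dc C‖ * ‖a‖ * ‖a‖ := by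
      rw [← Real.norm_eq_abs]
      exact ContinuousLinearMap.le_opNorm₂ _ _ _
    refine h3.trans ?_
    have h4 : ‖a‖ * ‖a‖ ≤ n2 a := by
      rw [← nr_sq]
      have := norm_le_nr a
      have := norm_nonneg a
      nlinarith
    have h5 : ‖C‖ ^ 2 ≤ n2 C := by
      rw [← nr_sq]
      have := norm_le_nr C
      have := norm_nonneg C
      gcongr
    calc ‖Hc dc C - Hc dc 0 - dH dc C‖ * ‖a‖ * ‖a‖
        = ‖Hc dc C - Hc dc 0 - dH dc C‖ * (‖a‖ * ‖a‖) := by ring
      _ ≤ (K2 * ‖C‖ ^ 2) * n2 a := by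
          refine mul_le_mul b3 h4 (by positivity) (by positivity)
      _ ≤ (K2 * n2 C) * n2 a := by gcongr
      _ = K2 * n2 C * n2 a := by ring
  have b5 : ‖a‖ ^ 3 ≤ nr a ^ 3 := by
    have := norm_le_nr a
    gcongr
  have e1 : (Hc dc C - Hc dc 0 - dH dc C) a a =
      W2 (wch dc) (C, 0) a a - (∑ i, dc.om i ^ 2 * a i ^ 2) - dH dc C a a := by
    have : (Hc dc C - Hc dc 0 - dH dc C) a a = Hc dc C a a - Hc dc 0 a a - dH dc C a a := rfl
    rw [this, Hc_zero h0 hG dc a]
    rfl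
  have e2 : ∑ i, a i * ((AC dc C).mulVec a) i = dH dc C a a := AC_quad dc C a
  show |magnetic (dc.ch (C, a)) - ((l : ℝ) ^ D)⁻¹ * vred B D C -
    1 / 2 * ∑ i, dc.om i ^ 2 * a i ^ 2 - 1 / 2 * ∑ i, a i * ((AC dc C).mulVec a) i| ≤
      (K1 + K2 + K3) * (nr C * vred B D C + n2 C * n2 a + nr a ^ 3)
  rw [e2, ← wch_eq]
  rw [← wch_eq] at b2
  set S := ∑ i, dc.om i ^ 2 * a i ^ 2 with hS
  have e3 : wch dc (C, a) - ((l : ℝ) ^ D)⁻¹ * vred B D C - 1 / 2 * S - 1 / 2 * dH dc C a a =
      (wch dc (C, a) - wch dc (C, 0) - 1 / 2 * W2 (wch dc) (C, 0) a a) +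
      (wch dc (C, 0) - ((l : ℝ) ^ D)⁻¹ * vred B D C) +
      1 / 2 * ((Hc dc C - Hc dc 0 - dH dc C) a a) := by
    rw [e1]
    ring
  rw [e3]
  have hv := vred_nonneg B D C
  have hnr : 0 ≤ nr C := Real.sqrt_nonneg _
  have hna : 0 ≤ nr a := Real.sqrt_nonneg _
  have t1 := abs_add_le (wch dc (C, a) - wch dc (C, 0) - 1 / 2 * W2 (wch dc) (C, 0) a a)
    (wch dc (C, 0) - ((l : ℝ) ^ D)⁻¹ * vred B D C)
  have t2 := abs_add_le ((wch dc (C, a) - wch dc (C, 0) - 1 / 2 * W2 (wch dc) (C, 0) a a) +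
    (wch dc (C, 0) - ((l : ℝ) ^ D)⁻¹ * vred B D C)) (1 / 2 * ((Hc dc C - Hc dc 0 - dH dc C) a a))
  have t3 : |1 / 2 * ((Hc dc C - Hc dc 0 - dH dc C) a a)| ≤ K2 * n2 C * n2 a := by
    rw [abs_mul, abs_of_nonneg (by norm_num : (0 : ℝ) ≤ 1 / 2)]
    have := abs_nonneg ((Hc dc C - Hc dc 0 - dH dc C) a a)
    linarith
  have t4 : K3 * ‖a‖ ^ 3 ≤ K3 * nr a ^ 3 := mul_le_mul_of_nonneg_left b5 hK3
  have p1 : 0 ≤ nr C * vred B D C := mul_nonneg hnr hv
  have p2 : 0 ≤ n2 C * n2 a := mul_nonneg hC0 ha0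
  have p3 : 0 ≤ nr a ^ 3 := by positivity
  have q1 : 0 ≤ K2 * (nr C * vred B D C) := mul_nonneg hK2 p1
  have q2 : 0 ≤ K3 * (nr C * vred B D C) := mul_nonneg hK3 p1
  have q3 : 0 ≤ K1 * (n2 C * n2 a) := mul_nonneg hK1 p2
  have q4 : 0 ≤ K3 * (n2 C * n2 a) := mul_nonneg hK3 p2
  have q5 : 0 ≤ K1 * nr a ^ 3 := mul_nonneg hK1 p3
  have q6 : 0 ≤ K2 * nr a ^ 3 := mul_nonneg hK2 p3
  nlinarith

end Pool.Agent.Q149.LU.T

namespace Pool.Agent.Q149.LU

theorem t_TAYL (h0 : Pool.Agent.Q77.LU.S_EXPG) (h1 : Pool.Agent.Q77.LU.S_TAY0)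
    (h2 : Pool.Agent.Q77.LU.S_SYMM) : Pool.Agent.Q77.LU.S_TAYL := T.t_TAYL h0 h1 h2

end Pool.Agent.Q149.LU
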