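import Pool.Agent.Q77.LU.Base
import Pool.Agent.Q149.LU.TA

/-!
# The magnetic energy as a function of the link fields
-/

set_option autoImplicit false
set_option linter.unusedSectionVars false

namespace Pool.Agent.Q149.LU

open Matrix Set Filter Topology
open scoped ContDiff Matrix.Norms.Frobenius

theorem contDiff_expM {N : ℕ} :
    ContDiff ℝ ∞ (fun A : Pool.Agent.Q77.LU.Mt N => NormedSpace.exp A) := by
  have h : AnalyticOnNhd ℝ (fun A : Pool.Agent.Q77.LU.Mt N => NormedSpace.exp A) Set.univ :=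
    fun x _ => NormedSpace.exp_analytic x
  exact h.contDiff

end Pool.Agent.Q149.LU

namespace Pool.Agent.Q149.LU.T

open Pool.Agent.Q77.LU
open Pool.Agent.Q149.LU (contDiff_expM W1 W2 taylor3 taylor_lim taylor2 W1_smooth W2_smooth W2_symm)
open Matrix Set Filter Topology
open scoped ContDiff Matrix.Norms.Frobenius

variable {N n D l : ℕ} [NeZero l] {G : Subgroup (UU N)}

/-- the magnetic energy of the configuration `exp y` -/
noncomputable def Fy (B : LieBasis G n) (y : Link D l × Fin n → ℝ) : ℝ := magnetic (eU B y)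

/-- the link matrix -/
noncomputable def lk (B : LieBasis G n) (e : Link D l) (y : Link D l × Fin n → ℝ) : Mt N :=
  lin B fun a => y (e, a)

theorem lk_add (B : LieBasis G n) (e : Link D l) (y z : Link D l × Fin n → ℝ) :
    lk B e (y + z) = lk B e y + lk B e z := lin_add B _ _

theorem lk_smul (B : LieBasis G n) (e : Link D l) (t : ℝ) (y : Link D l × Fin n → ℝ) :
    lk B e (t • y) = t • lk B e y := lin_smul B _ _

noncomputable def lkL (B : LieBasis G n) (e : Link D l) :
    (Link D l × Fin n → ℝ) →ₗ[ℝ] Mt N where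
  toFun := lk B e
  map_add' := lk_add B e
  map_smul' := lk_smul B e

theorem mt_eU (h0 : S_EXPG) (hG : IsClosed (G : Set (UU N))) (B : LieBasis G n)
    (y : Link D l × Fin n → ℝ) (e : Link D l) : mt (eU B y e) = NormedSpace.exp (lk B e y) :=
  mt_eG h0 hG B _

theorem contDiff_lk (B : LieBasis G n) (e : Link D l) :
    ContDiff ℝ ∞ (fun y : Link D l × Fin n → ℝ => lk B e y) :=
  (LinearMap.toContinuousLinearMap (lkL B e)).contDiff

theorem contDiff_Fy (h0 : S_EXPG) (hG : IsClosed (G : Set (UU N))) (B : LieBasis G n) :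
    ContDiff ℝ ∞ (Fy B : (Link D l × Fin n → ℝ) → ℝ) := by
  obtain ⟨f, hf, hfe⟩ := smooth_magnetic (D := D) (l := l) B
  have e : (Fy B : (Link D l × Fin n → ℝ) → ℝ) =
      fun y => f fun e => NormedSpace.exp (lk B e y) := by
    funext y
    unfold Fy
    have := hfe (eU B y)
    simp only [mt_eU h0 hG] at this
    exact this
  rw [e]
  exact hf.comp (contDiff_pi.2 fun e => contDiff_expM.comp (contDiff_lk B e))

/-! ### translations -/

theorem plaq_tr (U : Link D l → G) (z x : Fin D → ZMod l) (i j : Fin D) :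
    plaq (fun e : Link D l => U (e.1 + z, e.2)) x i j = plaq U (x + z) i j := by
  unfold plaq
  simp only [add_right_comm x z]

theorem magnetic_tr (U : Link D l → G) (z : Fin D → ZMod l) :
    magnetic (fun e : Link D l => U (e.1 + z, e.2)) = magnetic U := by
  unfold magnetic
  simp only [plaq_tr]
  have h := Equiv.sum_comp (Equiv.addRight z) (fun x : Fin D → ZMod l => ∑ i : Fin D,
    ∑ j : Fin D, if i < j then (trace (1 - mt (plaq U x i j))).re else 0)
  simp only [Equiv.coe_addRight] at h
  exact h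

/-- translation of fields -/
noncomputable def Tz (n : ℕ) (z : Fin D → ZMod l) :
    (Link D l × Fin n → ℝ) →L[ℝ] (Link D l × Fin n → ℝ) :=
  LinearMap.toContinuousLinearMap
    { toFun := fun y p => y ((p.1.1 + z, p.1.2), p.2)
      map_add' := fun _ _ => rfl
      map_smul' := fun _ _ => rfl }

theorem Tz_apply (z : Fin D → ZMod l) (y : Link D l × Fin n → ℝ) (p : Link D l × Fin n) :
    Tz n z y p = y ((p.1.1 + z, p.1.2), p.2) := rfl

theorem Fy_Tz (B : LieBasis G n) (z : Fin D → ZMod l) (y : Link D l × Fin n → ℝ) :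
    Fy B (Tz n z y) = Fy B y := by
  unfold Fy
  rw [← magnetic_tr (eU B y) z]
  rfl

/-- the derivative at a constant field vanishes on fields with mean zero -/
theorem fderiv_mean (h0 : S_EXPG) (hG : IsClosed (G : Set (UU N))) (B : LieBasis G n)
    (C : Fin D × Fin n → ℝ) (b : Link D l × Fin n → ℝ)
    (hb : ∀ (j : Fin D) (a : Fin n), ∑ x, b ((x, j), a) = 0) :
    fderiv ℝ (Fy B) (cons D l C) b = 0 := by
  have hd : ∀ y, HasFDerivAt (Fy B) (fderiv ℝ (Fy B) y) (y : Link D l × Fin n → ℝ) := fun y =>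
    ((contDiff_Fy h0 hG B).differentiable (by simp) y).hasFDerivAt
  have h1 : ∀ z : Fin D → ZMod l,
      fderiv ℝ (Fy B) (cons D l C) (Tz n z b) = fderiv ℝ (Fy B) (cons D l C) b := by
    intro z
    have e1 : Tz n z (cons D l C) = cons D l C := by
      funext p
      rfl
    have h2 := (hd (Tz n z (cons D l C))).comp (cons D l C) (Tz n z).hasFDerivAt
    have e2 : (Fy B) ∘ (Tz n z) = (Fy B : (Link D l × Fin n → ℝ) → ℝ) := by
      funext y
      exact Fy_Tz B z y
    rw [e2, e1] at h2
    have h3 := h2.unique (hd (cons D l C))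
    have h4 := congrArg (fun L : (Link D l × Fin n → ℝ) →L[ℝ] ℝ => L b) h3
    simpa using h4
  have h2 : ∑ z : Fin D → ZMod l, Tz n z b = 0 := by
    funext p
    rw [Finset.sum_apply]
    simp only [Tz_apply, Pi.zero_apply]
    rw [← hb p.1.2 p.2]
    exact Equiv.sum_comp (Equiv.addLeft p.1.1) (fun x => b ((x, p.1.2), p.2))
  have h3 : ∑ z : Fin D → ZMod l, fderiv ℝ (Fy B) (cons D l C) (Tz n z b) = 0 := by
    rw [← map_sum, h2, map_zero]
  simp only [h1, Finset.sum_const, Finset.card_univ, nsmul_eq_mul] at h3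
  rcases mul_eq_zero.1 h3 with h4 | h4
  · exfalso
    have : (Fintype.card (Fin D → ZMod l) : ℝ) ≠ 0 := by
      have : 0 < Fintype.card (Fin D → ZMod l) := Fintype.card_pos
      positivity
    exact this h4
  · exact h4

/-! ### gauge invariance -/

theorem plaq_gauge (U : Link D l → G) (h : G) (x : Fin D → ZMod l) (i j : Fin D) :
    plaq (Pool.Agent.Q77.LU.gauge (fun _ => h) U) x i j = h * plaq U x i j * h⁻¹ := by
  unfold plaq Pool.Agent.Q77.LU.gauge
  group

theorem magnetic_gauge (U : Link D l → G) (h : G) :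
    magnetic (Pool.Agent.Q77.LU.gauge (fun _ => h) U) = magnetic U := by
  unfold magnetic
  refine Finset.sum_congr rfl fun x _ => Finset.sum_congr rfl fun i _ =>
    Finset.sum_congr rfl fun j _ => ?_
  rw [plaq_gauge, mt_mul, mt_mul, mt_inv]
  have e : trace (1 - mt h * mt (plaq U x i j) * (mt h)ᴴ) =
      trace (1 - mt (plaq U x i j)) := by
    rw [trace_sub, trace_sub, Matrix.trace_mul_comm (mt h * mt (plaq U x i j)),
      ← Matrix.mul_assoc, mt_unit', Matrix.one_mul]
  rw [e]

/-! ### second order expansion at `0` -/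

/-- derivative of the plaquette matrix -/
noncomputable def Qp (B : LieBasis G n) (x : Fin D → ZMod l) (i j : Fin D)
    (y : Link D l × Fin n → ℝ) : Mt N :=
  lk B (x, i) y + lk B (x + unitv i, j) y - lk B (x + unitv j, i) y - lk B (x, j) y

theorem Qp_add (B : LieBasis G n) (x : Fin D → ZMod l) (i j : Fin D)
    (y z : Link D l × Fin n → ℝ) : Qp B x i j (y + z) = Qp B x i j y + Qp B x i j z := by
  unfold Qp
  simp only [lk_add]
  abel

theorem Qp_smul (B : LieBasis G n) (x : Fin D → ZMod l) (i j : Fin D) (t : ℝ)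
    (y : Link D l × Fin n → ℝ) : Qp B x i j (t • y) = t • Qp B x i j y := by
  unfold Qp
  simp only [lk_smul, smul_add, smul_sub]

noncomputable def QpL (B : LieBasis G n) (x : Fin D → ZMod l) (i j : Fin D) :
    (Link D l × Fin n → ℝ) →ₗ[ℝ] Mt N where
  toFun := Qp B x i j
  map_add' := Qp_add B x i j
  map_smul' := Qp_smul B x i j

theorem mt_eU_inv (h0 : S_EXPG) (hG : IsClosed (G : Set (UU N))) (B : LieBasis G n)
    (y : Link D l × Fin n → ℝ) (e : Link D l) :
    mt (eU B y e)⁻¹ = NormedSpace.exp (-(lk B e y)) := by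
  rw [mt_inv, mt_eU h0 hG, ← Matrix.exp_conjTranspose]
  congr 1
  unfold lk lin
  rw [conjTranspose_sum, ← Finset.sum_neg_distrib]
  refine Finset.sum_congr rfl fun a _ => ?_
  rw [conjTranspose_smul, star_trivial, skewX, smul_neg]

theorem eU_zero (h0 : S_EXPG) (hG : IsClosed (G : Set (UU N))) (B : LieBasis G n) :
    eU B (0 : Link D l × Fin n → ℝ) = fun _ => 1 := by
  funext e
  refine mt_inj ?_
  rw [mt_eU h0 hG, mt_one]
  have : lk B e (0 : Link D l × Fin n → ℝ) = 0 := lin_zero B
  rw [this, NormedSpace.exp_zero]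

theorem hasDerivAt_plaq (h0 : S_EXPG) (hG : IsClosed (G : Set (UU N))) (B : LieBasis G n)
    (x : Fin D → ZMod l) (i j : Fin D) (y : Link D l × Fin n → ℝ) :
    HasDerivAt (fun t : ℝ => mt (plaq (eU B (t • y)) x i j)) (Qp B x i j y) 0 := by
  have e : (fun t : ℝ => mt (plaq (eU B (t • y)) x i j)) =
      fun t : ℝ => NormedSpace.exp (t • lk B (x, i) y) *
        NormedSpace.exp (t • lk B (x + unitv i, j) y) *
        NormedSpace.exp (t • (-lk B (x + unitv j, i) y)) *
        NormedSpace.exp (t • (-lk B (x, j) y)) := by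
    funext t
    unfold plaq
    rw [mt_mul, mt_mul, mt_mul, mt_eU_inv h0 hG, mt_eU_inv h0 hG, mt_eU h0 hG, mt_eU h0 hG]
    simp only [lk_smul, smul_neg]
  rw [e]
  have h1 := hasDerivAt_exp_smul_const (𝕂 := ℝ) (lk B (x, i) y) (0 : ℝ)
  have h2 := hasDerivAt_exp_smul_const (𝕂 := ℝ) (lk B (x + unitv i, j) y) (0 : ℝ)
  have h3 := hasDerivAt_exp_smul_const (𝕂 := ℝ) (-lk B (x + unitv j, i) y) (0 : ℝ)
  have h4 := hasDerivAt_exp_smul_const (𝕂 := ℝ) (-lk B (x, j) y) (0 : ℝ)
  refine (((h1.fun_mul h2).fun_mul h3).fun_mul h4).congr_deriv ?_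
  simp only [zero_smul, NormedSpace.exp_zero, Matrix.one_mul, Matrix.mul_one]
  unfold Qp
  abel

theorem eU_single (h0 : S_EXPG) (hG : IsClosed (G : Set (UU N))) (B : LieBasis G n)
    (p : Link D l × Fin n) (t : ℝ) :
    Function.update (fun _ : Link D l => (1 : G)) p.1 (B.ex p.2 t * 1) =
      eU B (t • (Pi.single p 1 : Link D l × Fin n → ℝ)) := by
  funext e
  refine mt_inj ?_
  rw [mt_eU h0 hG, lk_smul]
  have hlk : lk B e (Pi.single p 1 : Link D l × Fin n → ℝ) = if e = p.1 then B.X p.2 else 0 := by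
    unfold lk lin
    split_ifs with he
    · rw [Finset.sum_eq_single p.2]
      · show (Pi.single p 1 : Link D l × Fin n → ℝ) (e, p.2) • B.X p.2 = B.X p.2
        rw [he, Pi.single_eq_same, one_smul]
      · intro b _ hb
        show (Pi.single p 1 : Link D l × Fin n → ℝ) (e, b) • B.X b = 0
        rw [Pi.single_eq_of_ne, zero_smul]
        intro h
        apply hb
        rw [← h]
      · simp
    · refine Finset.sum_eq_zero fun a _ => ?_
      show (Pi.single p 1 : Link D l × Fin n → ℝ) (e, a) • B.X a = 0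
      rw [Pi.single_eq_of_ne, zero_smul]
      intro h
      apply he
      rw [← h]
  rw [hlk]
  by_cases he : e = p.1
  · rw [if_pos he, he, Function.update_self, mul_one, B.ex_eq]
  · rw [if_neg he, Function.update_of_ne he, smul_zero, NormedSpace.exp_zero, mt_one]

theorem dpl_eq (h0 : S_EXPG) (hG : IsClosed (G : Set (UU N))) (B : LieBasis G n)
    (x : Fin D → ZMod l) (i j : Fin D) (p : Link D l × Fin n) :
    dpl B (fun _ => (1 : G)) x i j p = Qp B x i j (Pi.single p 1) := by
  unfold dpl
  simp only [eU_single h0 hG B p]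
  exact (hasDerivAt_plaq h0 hG B x i j (Pi.single p 1)).deriv

theorem Qp_sum (h0 : S_EXPG) (hG : IsClosed (G : Set (UU N))) (B : LieBasis G n)
    (x : Fin D → ZMod l) (i j : Fin D) (y : Link D l × Fin n → ℝ) :
    Qp B x i j y = ∑ p, y p • dpl B (fun _ => (1 : G)) x i j p := by
  have hy : y = ∑ p, y p • (Pi.single p 1 : Link D l × Fin n → ℝ) := by
    funext q
    rw [Finset.sum_apply, Finset.sum_eq_single q]
    · simp
    · intro b _ hb
      simp [Pi.single_eq_of_ne (Ne.symm hb)]
    · simp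
  have h := congrArg (QpL B x i j) hy
  rw [map_sum] at h
  simp only [map_smul] at h
  simp only [dpl_eq h0 hG B x i j]
  exact h

theorem fro2_Qp (h0 : S_EXPG) (hG : IsClosed (G : Set (UU N))) (B : LieBasis G n)
    (x : Fin D → ZMod l) (i j : Fin D) (y : Link D l × Fin n → ℝ) :
    fro2 (Qp B x i j y) = ∑ p, ∑ q, y p * y q *
      (trace ((dpl B (fun _ => (1 : G)) x i j p)ᴴ * dpl B (fun _ => (1 : G)) x i j q)).re := by
  unfold fro2
  rw [Qp_sum h0 hG, conjTranspose_sum, Finset.sum_mul, trace_sum, Complex.re_sum]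
  refine Finset.sum_congr rfl fun p _ => ?_
  rw [Finset.mul_sum, trace_sum, Complex.re_sum]
  refine Finset.sum_congr rfl fun q _ => ?_
  rw [conjTranspose_smul, star_trivial, Matrix.smul_mul, Matrix.mul_smul, trace_smul, trace_smul,
    Complex.smul_re, Complex.smul_re, smul_eq_mul, smul_eq_mul]
  ring

theorem sum_fro2_Qp (h0 : S_EXPG) (hG : IsClosed (G : Set (UU N))) (B : LieBasis G n)
    (y : Link D l × Fin n → ℝ) :
    (∑ x : Fin D → ZMod l, ∑ i : Fin D, ∑ j : Fin D, if i < j then fro2 (Qp B x i j y) else 0) =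
      ∑ p, y p * ((hess B (fun _ : Link D l => (1 : G))).mulVec y) p := by
  have e : ∀ p : Link D l × Fin n, y p * ((hess B (fun _ : Link D l => (1 : G))).mulVec y) p =
      ∑ x : Fin D → ZMod l, ∑ i : Fin D, ∑ j : Fin D, if i < j then ∑ q, y p * y q *
        (trace ((dpl B (fun _ => (1 : G)) x i j p)ᴴ * dpl B (fun _ => (1 : G)) x i j q)).re
          else 0 := by
    intro p
    unfold mulVec dotProduct hess
    rw [Finset.mul_sum]
    have : ∀ q : Link D l × Fin n, y p * ((∑ x : Fin D → ZMod l, ∑ i : Fin D, ∑ j : Fin D,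
        if i < j then (trace ((dpl B (fun _ => (1 : G)) x i j p)ᴴ *
          dpl B (fun _ => (1 : G)) x i j q)).re else 0) * y q) =
        ∑ x : Fin D → ZMod l, ∑ i : Fin D, ∑ j : Fin D, if i < j then y p * y q *
        (trace ((dpl B (fun _ => (1 : G)) x i j p)ᴴ * dpl B (fun _ => (1 : G)) x i j q)).re
          else 0 := by
      intro q
      rw [Finset.sum_mul, Finset.mul_sum]
      refine Finset.sum_congr rfl fun x _ => ?_
      rw [Finset.sum_mul, Finset.mul_sum]
      refine Finset.sum_congr rfl fun i _ => ?_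
      rw [Finset.sum_mul, Finset.mul_sum]
      refine Finset.sum_congr rfl fun j _ => ?_
      split_ifs <;> ring
    simp only [this]
    rw [Finset.sum_comm]
    refine Finset.sum_congr rfl fun x _ => ?_
    rw [Finset.sum_comm]
    refine Finset.sum_congr rfl fun i _ => ?_
    rw [Finset.sum_comm]
    refine Finset.sum_congr rfl fun j _ => ?_
    split_ifs
    · rfl
    · simp
  simp only [e]
  symm
  rw [Finset.sum_comm]
  refine Finset.sum_congr rfl fun x _ => ?_
  rw [Finset.sum_comm]
  refine Finset.sum_congr rfl fun i _ => ?_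
  rw [Finset.sum_comm]
  refine Finset.sum_congr rfl fun j _ => ?_
  split_ifs
  · exact (fro2_Qp h0 hG B x i j y).symm
  · simp

/-- second order behaviour of the magnetic energy along a line -/
theorem tendsto_Fy (h0 : S_EXPG) (hG : IsClosed (G : Set (UU N))) (B : LieBasis G n)
    (y : Link D l × Fin n → ℝ) :
    Tendsto (fun t : ℝ => Fy B (t • y) / t ^ 2) (𝓝[≠] 0)
      (𝓝 (1 / 2 * ∑ p, y p * ((hess B (fun _ : Link D l => (1 : G))).mulVec y) p)) := by
  rw [← sum_fro2_Qp h0 hG B y]
  have e1 : ∀ t : ℝ, Fy B (t • y) / t ^ 2 = ∑ x : Fin D → ZMod l, ∑ i : Fin D, ∑ j : Fin D,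
      if i < j then 1 / 2 * fro2 (t⁻¹ • (mt (plaq (eU B (t • y)) x i j) - 1)) else 0 := by
    intro t
    unfold Fy magnetic
    rw [Finset.sum_div]
    refine Finset.sum_congr rfl fun x _ => ?_
    rw [Finset.sum_div]
    refine Finset.sum_congr rfl fun i _ => ?_
    rw [Finset.sum_div]
    refine Finset.sum_congr rfl fun j _ => ?_
    split_ifs
    · rw [tr_one_sub, fro2_eq, fro2_eq, norm_smul, mul_pow, norm_sub_rev, norm_inv,
        Real.norm_eq_abs, inv_pow, sq_abs]
      ring
    · simp
  simp only [e1]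
  rw [Finset.mul_sum]
  refine tendsto_finsetSum _ fun x _ => ?_
  rw [Finset.mul_sum]
  refine tendsto_finsetSum _ fun i _ => ?_
  rw [Finset.mul_sum]
  refine tendsto_finsetSum _ fun j _ => ?_
  split_ifs
  · have h := (hasDerivAt_plaq h0 hG B x i j y).tendsto_slope_zero
    simp only [zero_add, zero_smul] at h
    rw [eU_zero h0 hG] at h
    have h1 : plaq (fun _ : Link D l => (1 : G)) x i j = 1 := by unfold plaq; simp
    rw [h1, mt_one] at h
    have h2 := (h.norm.pow 2).const_mul (1 / 2)
    rw [← fro2_eq] at h2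
    simp only [fro2_eq] at h2 ⊢
    exact h2
  · rw [mul_zero]
    exact tendsto_const_nhds

end Pool.Agent.Q149.LU.T
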